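import Mathlib

/-!
All distances at once.
-/

set_option autoImplicit false
set_option linter.unusedSectionVars false

open scoped BigOperators
open MeasureTheory Filter Topology

namespace Pool.Agent.Zk60.AE

/-- the union over the dyadic distances -/
theorem dyadic_union {Ω : Type*} [MeasurableSpace Ω] (ν : Measure Ω) [IsProbabilityMeasure ν]
    {A R : ℝ} (hA : 0 < A) (hR : 2 ≤ R) (P : ℝ → Ω → Prop)
    (h : ∀ R' : ℝ, R ≤ R' → ∃ Bad : Set Ω, MeasurableSet Bad ∧ ν.real Bad ≤ R' ^ (-(A + 1)) ∧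
      ∀ V, V ∉ Bad → P R' V) :
    ∃ Bad : Set Ω, MeasurableSet Bad ∧ ν.real Bad ≤ R ^ (-A) ∧
      ∀ V, V ∉ Bad → ∀ k : ℕ, P (2 ^ k * R) V := by
  have hR0 : 0 < R := by linarith
  have hk : ∀ k : ℕ, R ≤ 2 ^ k * R := fun k => by
    have h1 : (1:ℝ) ≤ 2 ^ k := one_le_pow₀ (by norm_num)
    nlinarith
  choose Bad b1 b2 b3 using fun k : ℕ => h (2 ^ k * R) (hk k)
  refine ⟨⋃ k, Bad k, MeasurableSet.iUnion b1, ?_, fun V hV k => b3 k V fun h1 =>
    hV (Set.mem_iUnion.2 ⟨k, h1⟩)⟩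
  have h1 : ∀ k : ℕ, ν (Bad k) ≤ ENNReal.ofReal ((1 / 2) ^ k * R ^ (-(A + 1))) := by
    intro k
    rw [← ENNReal.ofReal_toReal (measure_ne_top ν (Bad k))]
    apply ENNReal.ofReal_le_ofReal
    refine (b2 k).trans ?_
    rw [Real.mul_rpow (by positivity) hR0.le]
    have h2 : ((2:ℝ) ^ k) ^ (-(A + 1)) ≤ (1 / 2) ^ k := by
      calc ((2:ℝ) ^ k) ^ (-(A + 1)) ≤ ((2:ℝ) ^ k) ^ (-1 : ℝ) :=
            Real.rpow_le_rpow_of_exponent_le (one_le_pow₀ (by norm_num)) (by linarith)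
        _ = (1 / 2) ^ k := by
            rw [Real.rpow_neg_one, one_div, inv_pow]
    have h3 : 0 ≤ R ^ (-(A + 1)) := Real.rpow_nonneg hR0.le _
    gcongr
  have hs : HasSum (fun k : ℕ => (1 / 2 : ℝ) ^ k * R ^ (-(A + 1))) (2 * R ^ (-(A + 1))) := by
    have := hasSum_geometric_two.mul_right (R ^ (-(A + 1)))
    exact this
  have h3 : ν (⋃ k, Bad k) ≤ ENNReal.ofReal (2 * R ^ (-(A + 1))) := by
    refine (measure_iUnion_le Bad).trans ((ENNReal.tsum_le_tsum h1).trans ?_)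
    rw [← hs.tsum_eq, ENNReal.ofReal_tsum_of_nonneg (fun k => by positivity) hs.summable]
  have h4 : ν.real (⋃ k, Bad k) ≤ 2 * R ^ (-(A + 1)) :=
    ENNReal.toReal_le_of_le_ofReal (by positivity) h3
  refine h4.trans ?_
  have h5 : R ^ (-(A + 1)) = R ^ (-A) * R⁻¹ := by
    rw [← Real.rpow_neg_one, ← Real.rpow_add hR0]
    congr 1
    ring
  rw [h5]
  have h6 : 0 ≤ R ^ (-A) := Real.rpow_nonneg hR0.le _
  have h7 : 2 * R⁻¹ ≤ 1 := by
    rw [← div_eq_mul_inv, div_le_one hR0]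
    exact hR
  calc 2 * (R ^ (-A) * R⁻¹) = R ^ (-A) * (2 * R⁻¹) := by ring
    _ ≤ R ^ (-A) * 1 := mul_le_mul_of_nonneg_left h7 h6
    _ = _ := mul_one _

/-- the dyadic distance of a point -/
theorem pick {R t : ℝ} (hR : 2 ≤ R) (ht : 0 ≤ t) :
    ∃ k : ℕ, t ≤ 2 ^ k * R ∧ Real.log (2 ^ k * R) ≤ 2 * Real.log (R + t) := by
  have hex : ∃ k : ℕ, t ≤ 2 ^ k * R := by
    obtain ⟨k, hk⟩ := pow_unbounded_of_one_lt t (one_lt_two)
    refine ⟨k, hk.le.trans ?_⟩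
    have : (0:ℝ) < 2 ^ k := by positivity
    nlinarith
  classical
  refine ⟨Nat.find hex, Nat.find_spec hex, ?_⟩
  have h1 : (2:ℝ) ^ Nat.find hex * R ≤ 2 * (R + t) := by
    rcases Nat.eq_zero_or_pos (Nat.find hex) with h0 | h0
    · rw [h0, pow_zero, one_mul]
      linarith
    · have h2 := Nat.find_min hex (Nat.sub_lt h0 one_pos)
      rw [not_le] at h2
      have h3 : (2:ℝ) ^ Nat.find hex = 2 * 2 ^ (Nat.find hex - 1) := by
        rw [← pow_succ']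
        congr 1
        omega
      rw [h3]
      nlinarith
  have h2 : (2:ℝ) ^ Nat.find hex * R ≤ (R + t) ^ 2 := by nlinarith
  have h3 := Real.log_le_log (by positivity) h2
  rwa [Real.log_pow, Nat.cast_ofNat] at h3

end Pool.Agent.Zk60.AE
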