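import Pool.Agent.Zk50.Slab

/-!
Statements for the slab estimate at all energies.
-/

set_option autoImplicit false
set_option linter.unusedSectionVars false

open scoped BigOperators

namespace Pool.Agent.Zk60.AE

open Pool.Agent.W788.MFP.Four (T e NN adj adj_neg e_comm e_add_left e_add e_zero e_neg e_neg_left
  e_normSq sum_e NN_pos card_T e_single)
open Pool.Agent.Zk11.QD

/-- the one-dimensional estimate with the dependence on `c` (proof of `one_d` in `Zk9/OneD.lean`) -/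
def S_OneDC : Prop := ∃ C : ℝ, 0 < C ∧ ∀ c : ℝ, 0 < c → c ≤ 1 → ∀ (L : ℕ) [NeZero L] (η : ℝ),
  1 / (L : ℝ) ≤ η → η ≤ 1 / 2 → ∀ E : ℝ,
    (1 / (L : ℝ)) * ∑ q ∈ (Finset.univ : Finset (ZMod L)).filter
      (fun q => c ≤ |(ZMod.stdAddChar q : ℂ).im|),
      ((2 - 2 * (ZMod.stdAddChar q : ℂ).re - E) ^ 2 + η ^ 2) ^ (-(1 / 2) : ℝ) ≤
      C / c * Real.log (1 / η)

/-- few points near the critical ones -/
def S_Cnt : Prop := ∃ C : ℝ, 0 < C ∧ ∀ c : ℝ, 0 < c → ∀ (L : ℕ) [NeZero L], 1 / (L : ℝ) ≤ c →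
  (((Finset.univ : Finset (ZMod L)).filter
    (fun q => |(ZMod.stdAddChar q : ℂ).im| ≤ c)).card : ℝ) ≤ C * c * L

/-- the slab estimate at all energies: near the critical values `4 j` the bound is `r ^ 2` -/
def S_ALL (d : ℕ) : Prop := ∃ C : ℝ, 0 < C ∧ ∀ (L : ℕ) [NeZero L] (η : ℝ),
  1 / (L : ℝ) ≤ η → η ≤ 1 / 2 → ∀ E κ : ℝ, 0 ≤ κ → κ ≤ 1 → (∀ j : ℕ, j ≤ d → κ ≤ |E - 4 * j|) →
    ∀ (g : T d L → ℂ) (y : T d L) (r : ℝ), 1 ≤ r →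
      ∑ x ∈ Finset.univ.filter
        (fun x : T d L => ∀ i, ((|((x - y) i).valMinAbs| : ℤ) : ℝ) ≤ r),
        ‖kc (fun k => (tw E η k : ℂ) * g k) x‖ ^ 2 ≤
      C * (r ^ 2 / (1 + r * Real.sqrt κ)) * Real.log (1 / η) ^ 2 * ((NN d L)⁻¹ * ∑ k, ‖g k‖ ^ 2)

/-- the slab estimate at all energies, with one logarithm (`d ≥ 3`) -/
def S_ALL1 (d : ℕ) : Prop := ∃ C : ℝ, 0 < C ∧ ∀ (L : ℕ) [NeZero L] (η : ℝ),
  1 / (L : ℝ) ≤ η → η ≤ 1 / 2 → ∀ E κ : ℝ, 0 ≤ κ → κ ≤ 1 → (∀ j : ℕ, j ≤ d → κ ≤ |E - 4 * j|) →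
    ∀ (g : T d L → ℂ) (y : T d L) (r : ℝ), 1 ≤ r →
      ∑ x ∈ Finset.univ.filter
        (fun x : T d L => ∀ i, ((|((x - y) i).valMinAbs| : ℤ) : ℝ) ≤ r),
        ‖kc (fun k => (tw E η k : ℂ) * g k) x‖ ^ 2 ≤
      C * (r ^ 2 / (1 + r * Real.sqrt κ)) * Real.log (1 / η) * ((NN d L)⁻¹ * ∑ k, ‖g k‖ ^ 2)

end Pool.Agent.Zk60.AE
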