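import Pool.Agent.Zk60.AE.All4
import Pool.Agent.Zk60.AE.AllR0

/-!
All distances at once.
-/

set_option autoImplicit false
set_option linter.unusedSectionVars false

open scoped BigOperators
open MeasureTheory Filter Topology

namespace Pool.Agent.Zk60.AE

open Pool.Agent.W788.MFP.Four (T e NN adj adj_neg e_comm e_add_left e_add e_zero e_neg e_neg_left
  e_normSq sum_e NN_pos card_T e_single)
open Pool.Agent.Zk11.QD

/-- Every solution on the lattice is spread, at all energies and all distances. -/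
theorem everyR2 (d : ℕ) (hall : S_ALL d) (A : ℝ) (hA : 0 < A) (b : ℝ) :
    ∃ C lam0 : ℝ, 0 < C ∧ 0 < lam0 ∧
      ∀ (μ : Measure ℝ) [IsProbabilityMeasure μ], (∀ᵐ t ∂μ, |t| ≤ b) →
      ∀ lam : ℝ, 0 < lam → lam < lam0 → ∀ R : ℝ, lam ^ (-(2:ℝ)) ≤ R →
        ∃ Bad : Set ((Fin d → ℤ) → ℝ), MeasurableSet Bad ∧
          (Measure.infinitePi fun _ : Fin d → ℤ => μ).real Bad ≤ R ^ (-A) ∧
          ∀ V, V ∉ Bad → ∀ (E κ : ℝ) (u : (Fin d → ℤ) → ℂ), |E| ≤ 4 * d + 1 → 0 ≤ κ → κ ≤ 1 →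
            (∀ j : ℕ, j ≤ d → κ ≤ |E - lam * (∫ t, t ∂μ) - 4 * j|) →
            ∀ y : Fin d → ℤ,
              (∀ x ∈ cubZ y (lam ^ (-(2:ℝ))), HzZ ((E:ℝ):ℂ) lam V u x = 0) →
              ∀ r : ℝ, 1 ≤ r → r ≤ lam ^ (-(2:ℝ)) →
                ∑ x ∈ cubZ y r, ‖u x‖ ^ 2 ≤
                  C * lam ^ 2 * Real.log (1 / lam) ^ 4 * Real.log (R + ‖y‖) *
                    (r ^ 2 / (1 + r * Real.sqrt κ)) *
                    ∑ x ∈ cubZ y (lam ^ (-(2:ℝ))), ‖u x‖ ^ 2 := by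
  obtain ⟨C, l0, hC, hl0, h⟩ := everyZ2 d hall (A + 1) (by linarith) b
  refine ⟨2 * C, min l0 (1 / 2), by positivity, lt_min hl0 (by norm_num), ?_⟩
  intro μ _ hμ lam hlam hlam1 R hR
  rw [lt_min_iff] at hlam1
  have h4 : 4 ≤ lam ^ (-(2:ℝ)) := by
    have hm2' : lam ^ (-(2:ℝ)) = (lam ^ 2)⁻¹ := by
      rw [Real.rpow_neg hlam.le]
      congr 1
      exact_mod_cast Real.rpow_natCast lam 2
    rw [hm2', le_inv_comm₀ (by norm_num) (by positivity)]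
    nlinarith [hlam1.2]
  have hR2 : 2 ≤ R := by linarith
  obtain ⟨Bad, b1, b2, b3⟩ := dyadic_union (Measure.infinitePi fun _ : Fin d → ℤ => μ) hA hR2 _
    (fun R' hR' => h μ hμ lam hlam hlam1.1 R' (hR.trans hR'))
  refine ⟨Bad, b1, b2, ?_⟩
  intro V hV E κ u hE hκ hκ1 hE4 y hu r hr1 hr2
  obtain ⟨k, hk1, hk2⟩ := pick hR2 (norm_nonneg y)
  have h5 := b3 V hV k E κ u hE hκ hκ1 hE4 y (fun i => by
    refine le_trans ?_ hk1
    have := norm_le_pi_norm y i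
    rwa [Int.norm_eq_abs, ← Int.cast_abs] at this) hu r hr1 hr2
  refine h5.trans ?_
  have hnn : 0 ≤ ∑ x ∈ cubZ y (lam ^ (-(2:ℝ))), ‖u x‖ ^ 2 :=
    Finset.sum_nonneg fun _ _ => by positivity
  have hφ := phi_pos (κ := κ) hr1
  calc C * lam ^ 2 * Real.log (1 / lam) ^ 4 * Real.log (2 ^ k * R) *
      (r ^ 2 / (1 + r * Real.sqrt κ)) * ∑ x ∈ cubZ y (lam ^ (-(2:ℝ))), ‖u x‖ ^ 2
      ≤ C * lam ^ 2 * Real.log (1 / lam) ^ 4 * (2 * Real.log (R + ‖y‖)) *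
        (r ^ 2 / (1 + r * Real.sqrt κ)) *
        ∑ x ∈ cubZ y (lam ^ (-(2:ℝ))), ‖u x‖ ^ 2 := by gcongr
    _ = _ := by ring

end Pool.Agent.Zk60.AE
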