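import Pool.Agent.Zk60.AE.LogZ
import Pool.Agent.Zk60.AE.AllE

/-!
The local estimate at all energies.
-/

set_option autoImplicit false
set_option linter.unusedSectionVars false

open scoped BigOperators
open MeasureTheory Filter Topology

namespace Pool.Agent.Zk60.AE

open Pool.Agent.W788.MFP.Four (T e NN adj adj_neg e_comm e_add_left e_add e_zero e_neg e_neg_left
  e_normSq sum_e NN_pos card_T e_single)
open Pool.Agent.Zk11.QD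

/-- the diagonal, from the slab estimate at all energies -/
theorem diag_all {d : ℕ} (h : S_ALL d) :
    ∃ C : ℝ, 0 < C ∧ ∀ (L : ℕ) [NeZero L] (η : ℝ), 1 / (L : ℝ) ≤ η → η ≤ 1 / 2 → ∀ E : ℝ,
      (NN d L)⁻¹ * ∑ k : T d L, tw E η k ^ 2 ≤ C * Real.log (1 / η) ^ 2 := by
  obtain ⟨C, hC, h2⟩ := h
  refine ⟨C, hC, ?_⟩
  intro L _ η hη1 hη2 E
  have hN := NN_pos (d := d) (L := L)
  set g : T d L → ℂ := fun k => (tw E η k : ℂ) with hg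
  set A := (NN d L)⁻¹ * ∑ k : T d L, tw E η k ^ 2 with hA
  have hA0 : 0 ≤ A := mul_nonneg (inv_nonneg.2 hN.le) (Finset.sum_nonneg fun _ _ => by positivity)
  have h3 := h2 L η hη1 hη2 E 0 le_rfl zero_le_one (fun j _ => abs_nonneg _) g 0 1 le_rfl
  have h4 : ((NN d L)⁻¹ * ∑ k : T d L, ‖g k‖ ^ 2) = A := by
    rw [hA]
    congr 1
    refine Finset.sum_congr rfl fun k _ => ?_
    rw [hg, Complex.norm_real, Real.norm_eq_abs, sq_abs]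
  rw [h4] at h3
  have h5 : ‖kc (fun k : T d L => (tw E η k : ℂ) * g k) 0‖ = A := by
    unfold kc
    simp only [e_zero, mul_one]
    rw [norm_mul, norm_inv, Complex.norm_real, Real.norm_eq_abs, abs_of_pos hN, hA]
    congr 1
    have h6 : ∑ k : T d L, (tw E η k : ℂ) * g k = ((∑ k : T d L, tw E η k ^ 2 : ℝ) : ℂ) := by
      push_cast
      refine Finset.sum_congr rfl fun k _ => ?_
      rw [hg]
      ring
    rw [h6, Complex.norm_real, Real.norm_eq_abs,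
      abs_of_nonneg (Finset.sum_nonneg fun _ _ => by positivity)]
  have h6 : A ^ 2 ≤ C * (1 ^ 2 / (1 + 1 * Real.sqrt 0)) * Real.log (1 / η) ^ 2 * A := by
    refine le_trans ?_ h3
    rw [← h5]
    refine Finset.single_le_sum
      (f := fun x : T d L => ‖kc (fun k => (tw E η k : ℂ) * g k) x‖ ^ 2)
      (fun x _ => sq_nonneg _) ?_
    refine Finset.mem_filter.2 ⟨Finset.mem_univ _, fun i => ?_⟩
    simp
  have h6' : C * (1 ^ 2 / (1 + 1 * Real.sqrt 0)) * Real.log (1 / η) ^ 2 * A =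
      C * Real.log (1 / η) ^ 2 * A := by simp
  rw [h6'] at h6
  rcases hA0.eq_or_lt with h7 | h7
  · rw [← h7]
    positivity
  · have h8 : A * A ≤ (C * Real.log (1 / η) ^ 2) * A := by nlinarith
    exact le_of_mul_le_mul_right h8 h7

variable {d L : ℕ} [NeZero L]

/-- the local estimate with a general bound for one cube -/
theorem local_gen {E η lam m Θ : ℝ} (hη : 0 < η) (V : T d L → ℝ)
    (hX : ∀ z : T d L → ℂ, ∑ y, ‖(lam : ℂ) * ∑ x, Tk E η (y - x) *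
      (((V x - m : ℝ) : ℂ) * ∑ w, Tk E η (x - w) * z w)‖ ^ 2 ≤ 1 / 4 * ∑ y, ‖z y‖ ^ 2)
    (hΘ : 0 ≤ Θ) (y : T d L) (r : ℝ)
    (hs : ∀ (g : T d L → ℂ),
      ∑ x ∈ cub y r, ‖kc (fun k => (tw E η k : ℂ) * g k) x‖ ^ 2 ≤
        Θ * ((NN d L)⁻¹ * ∑ k, ‖g k‖ ^ 2))
    (u : T d L → ℂ) (hr : r ≤ 1 / η) :
    ∑ x ∈ cub y r, ‖u x‖ ^ 2 ≤ Θ * (64 * d ^ 2 + 16) *
      (η * ∑ x ∈ cub y (2 / η + 2), ‖u x‖ ^ 2 +
        η⁻¹ * ∑ x ∈ cub y (2 / η + 2), ‖Hz ((E + lam * m : ℝ) : ℂ) lam V u x‖ ^ 2) := by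
  set c : T d L → ℝ := cut η y with hc
  set φ : T d L → ℂ := fun x => (c x : ℂ) * u x with hφ
  obtain ⟨g, hg1, hg2⟩ := det hη V hX φ
  have hsub : cub y (2 / η) ⊆ cub y (2 / η + 2) := cub_mono (by linarith)
  -- on the small cube
  have h1 : ∑ x ∈ cub y r, ‖u x‖ ^ 2 = ∑ x ∈ cub y r, ‖kc (fun k => (tw E η k : ℂ) * g k) x‖ ^ 2 := by
    refine Finset.sum_congr rfl fun x hx => ?_
    rw [← hg1 x]
    simp only [hφ]
    rw [hc, cut_one hη y x (cub_mono hr hx), Complex.ofReal_one, one_mul]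
  rw [h1]
  refine (hs g).trans ?_
  rw [mul_assoc Θ]
  refine mul_le_mul_of_nonneg_left (hg2.trans ?_) hΘ
  -- the norm of `φ`
  have hcz : ∀ x, x ∉ cub y (2 / η + 2) → c x = 0 := by
    intro x hx
    exact cut_zero hη y x (fun h => hx (hsub h))
  have hc01 : ∀ x, c x ^ 2 ≤ 1 := by
    intro x
    have := cut_nonneg η y x
    have := cut_le η y x
    rw [hc]
    nlinarith
  have h2 : ∑ x, ‖φ x‖ ^ 2 ≤ ∑ x ∈ cub y (2 / η + 2), ‖u x‖ ^ 2 := by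
    rw [← Finset.sum_subset (Finset.subset_univ (cub y (2 / η + 2)))]
    · refine Finset.sum_le_sum fun x _ => ?_
      simp only [hφ]
      rw [norm_mul, mul_pow, Complex.norm_real, Real.norm_eq_abs, sq_abs]
      have := hc01 x
      nlinarith [sq_nonneg ‖u x‖]
    · intro x _ hx
      simp only [hφ]
      rw [hcz x hx]
      simp
  have h3 : ∑ x, ‖Hz ((E + lam * m : ℝ) : ℂ) lam V φ x‖ ^ 2 ≤
      2 * ∑ x ∈ cub y (2 / η + 2), ‖Hz ((E + lam * m : ℝ) : ℂ) lam V u x‖ ^ 2 +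
      2 * ∑ x, ‖comm c u x‖ ^ 2 := by
    have h4 : ∑ x ∈ cub y (2 / η + 2), ‖Hz ((E + lam * m : ℝ) : ℂ) lam V u x‖ ^ 2 ≥
        ∑ x, ‖(c x : ℂ) * Hz ((E + lam * m : ℝ) : ℂ) lam V u x‖ ^ 2 := by
      rw [ge_iff_le, ← Finset.sum_subset (Finset.subset_univ (cub y (2 / η + 2)))]
      · refine Finset.sum_le_sum fun x _ => ?_
        rw [norm_mul, mul_pow, Complex.norm_real, Real.norm_eq_abs, sq_abs]
        have := hc01 x
        nlinarith [sq_nonneg ‖Hz ((E + lam * m : ℝ) : ℂ) lam V u x‖]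
      · intro x _ hx
        rw [hcz x hx]
        simp
    have h5 : ∑ x, ‖Hz ((E + lam * m : ℝ) : ℂ) lam V φ x‖ ^ 2 ≤
        2 * ∑ x, ‖(c x : ℂ) * Hz ((E + lam * m : ℝ) : ℂ) lam V u x‖ ^ 2 +
        2 * ∑ x, ‖comm c u x‖ ^ 2 := by
      rw [Finset.mul_sum, Finset.mul_sum, ← Finset.sum_add_distrib]
      refine Finset.sum_le_sum fun x _ => ?_
      rw [hφ, Hz_cut]
      exact norm_sq_add _ _
    linarith
  have h4 := comm_sum hη y u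
  set A := ∑ x ∈ cub y (2 / η + 2), ‖u x‖ ^ 2 with hA
  set B := ∑ x ∈ cub y (2 / η + 2), ‖Hz ((E + lam * m : ℝ) : ℂ) lam V u x‖ ^ 2 with hB
  have hA0 : 0 ≤ A := Finset.sum_nonneg fun _ _ => by positivity
  have hB0 : 0 ≤ B := Finset.sum_nonneg fun _ _ => by positivity
  have hη' : 0 < η⁻¹ := inv_pos.2 hη
  have h5 : 8 * η⁻¹ * ∑ x, ‖Hz ((E + lam * m : ℝ) : ℂ) lam V φ x‖ ^ 2 ≤
      8 * η⁻¹ * (2 * B + 2 * (4 * d ^ 2 * η ^ 2 * A)) :=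
    mul_le_mul_of_nonneg_left (h3.trans (by linarith)) (by positivity)
  have h6 : 8 * η * ∑ x, ‖φ x‖ ^ 2 ≤ 8 * η * A := mul_le_mul_of_nonneg_left h2 (by positivity)
  have h7 : 8 * η⁻¹ * (2 * B + 2 * (4 * (d : ℝ) ^ 2 * η ^ 2 * A)) =
      16 * (η⁻¹ * B) + 64 * (d : ℝ) ^ 2 * (η * A) := by
    field_simp
    ring
  rw [h7] at h5
  have h8 : 0 ≤ (d : ℝ) ^ 2 * (η⁻¹ * B) := by positivity
  have h9 : 0 ≤ η * A := by positivity
  nlinarith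

/-- The local estimate for an energy near the grid energy. -/
theorem local3 {E E' η lam m Θ R : ℝ} (hη : 0 < η) (V : T d L → ℝ)
    (hX : ∀ z : T d L → ℂ, ∑ y, ‖(lam : ℂ) * ∑ x, Tk E η (y - x) *
      (((V x - m : ℝ) : ℂ) * ∑ w, Tk E η (x - w) * z w)‖ ^ 2 ≤ 1 / 4 * ∑ y, ‖z y‖ ^ 2)
    (hΘ : 0 ≤ Θ) (y : T d L) (r : ℝ)
    (hs : ∀ (g : T d L → ℂ),
      ∑ x ∈ cub y r, ‖kc (fun k => (tw E η k : ℂ) * g k) x‖ ^ 2 ≤
        Θ * ((NN d L)⁻¹ * ∑ k, ‖g k‖ ^ 2))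
    (hE : |E' - (E + lam * m)| ≤ η) (hR : 2 / η + 2 ≤ R)
    (u : T d L → ℂ) (hr : r ≤ 1 / η) :
    ∑ x ∈ cub y r, ‖u x‖ ^ 2 ≤ Θ * (64 * d ^ 2 + 16) *
      (3 * η * ∑ x ∈ cub y R, ‖u x‖ ^ 2 +
        2 * η⁻¹ * ∑ x ∈ cub y R, ‖Hz ((E' : ℝ) : ℂ) lam V u x‖ ^ 2) := by
  have hmain := local_gen hη V hX hΘ y r hs u hr
  have hsub : cub y (2 / η + 2) ⊆ cub y R := cub_mono hR
  have hAA : ∑ x ∈ cub y (2 / η + 2), ‖u x‖ ^ 2 ≤ ∑ x ∈ cub y R, ‖u x‖ ^ 2 :=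
    Finset.sum_le_sum_of_subset_of_nonneg hsub fun _ _ _ => by positivity
  have hHs : ∑ x ∈ cub y (2 / η + 2), ‖Hz ((E' : ℝ) : ℂ) lam V u x‖ ^ 2 ≤
      ∑ x ∈ cub y R, ‖Hz ((E' : ℝ) : ℂ) lam V u x‖ ^ 2 :=
    Finset.sum_le_sum_of_subset_of_nonneg hsub fun _ _ _ => by positivity
  have hBs : ∑ x ∈ cub y (2 / η + 2),
      ‖Hz ((E + lam * m : ℝ) : ℂ) lam V u x‖ ^ 2 ≤
      2 * ∑ x ∈ cub y (2 / η + 2), ‖Hz ((E' : ℝ) : ℂ) lam V u x‖ ^ 2 +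
      2 * (η ^ 2 * ∑ x ∈ cub y (2 / η + 2), ‖u x‖ ^ 2) := by
    rw [Finset.mul_sum, Finset.mul_sum, Finset.mul_sum, ← Finset.sum_add_distrib]
    refine Finset.sum_le_sum fun x _ => ?_
    rw [Hz_shift ((E' : ℝ) : ℂ)]
    have e1 : ((E' : ℝ) : ℂ) - ((E + lam * m : ℝ) : ℂ) =
        ((E' - (E + lam * m) : ℝ) : ℂ) := by
      push_cast; ring
    rw [e1]
    have e2 : (E' - (E + lam * m)) ^ 2 ≤ η ^ 2 := by
      rw [← sq_abs (E' - (E + lam * m))]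
      exact pow_le_pow_left₀ (abs_nonneg _) hE 2
    have e3 : ‖((E' - (E + lam * m) : ℝ) : ℂ) * u x‖ ^ 2 ≤ η ^ 2 * ‖u x‖ ^ 2 := by
      rw [norm_mul, mul_pow, Complex.norm_real, Real.norm_eq_abs, sq_abs]
      exact mul_le_mul_of_nonneg_right e2 (by positivity)
    have e4 := norm_sq_add (Hz ((E' : ℝ) : ℂ) lam V u x) (((E' - (E + lam * m) : ℝ) : ℂ) * u x)
    linarith
  refine hmain.trans ?_
  refine mul_le_mul_of_nonneg_left ?_ (by positivity)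
  set A' := ∑ x ∈ cub y (2 / η + 2), ‖u x‖ ^ 2 with hAd
  set D' := ∑ x ∈ cub y R, ‖u x‖ ^ 2 with hDd
  set F := ∑ x ∈ cub y (2 / η + 2), ‖Hz ((E' : ℝ) : ℂ) lam V u x‖ ^ 2 with hFd
  set K' := ∑ x ∈ cub y R, ‖Hz ((E' : ℝ) : ℂ) lam V u x‖ ^ 2 with hKd
  set Z := ∑ x ∈ cub y (2 / η + 2), ‖Hz ((E + lam * m : ℝ) : ℂ) lam V u x‖ ^ 2 with hZ
  have hηi : 0 < η⁻¹ := inv_pos.2 hη
  have e1 : η⁻¹ * Z ≤ η⁻¹ * (2 * F + 2 * (η ^ 2 * A')) := mul_le_mul_of_nonneg_left hBs hηi.le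
  have e2 : η⁻¹ * (2 * F + 2 * (η ^ 2 * A')) = 2 * (η⁻¹ * F) + 2 * (η * A') := by field_simp
  have e3 : η⁻¹ * F ≤ η⁻¹ * K' := mul_le_mul_of_nonneg_left hHs hηi.le
  have e4 : η * A' ≤ η * D' := mul_le_mul_of_nonneg_left hAA hη.le
  rw [e2] at e1
  linarith

end Pool.Agent.Zk60.AE
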