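import Pool.Agent.Zk60.AE.All2

/-!
The local estimate at all energies.
-/

set_option autoImplicit false
set_option linter.unusedSectionVars false

open scoped BigOperators
open MeasureTheory Filter Topology

namespace Pool.Agent.Zk60.AE

open Pool.Agent.W788.MFP.Four (T e NN adj adj_neg e_comm e_add_left e_add e_zero e_neg e_neg_left
  e_normSq sum_e NN_pos card_T e_single)
open Pool.Agent.Zk11.QD

theorem phi_pos {κ r : ℝ} (hr : 1 ≤ r) : 0 < r ^ 2 / (1 + r * Real.sqrt κ) := by positivity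

theorem phi_ge {κ r : ℝ} (hκ1 : κ ≤ 1) (hr : 1 ≤ r) :
    r / 2 ≤ r ^ 2 / (1 + r * Real.sqrt κ) := by
  have h1 : Real.sqrt κ ≤ 1 := by rw [← Real.sqrt_one]; exact Real.sqrt_le_sqrt hκ1
  rw [div_le_div_iff₀ (by norm_num) (by positivity)]
  have h2 : r * Real.sqrt κ ≤ r * 1 := by gcongr
  nlinarith

theorem phi_cases {κ r η : ℝ} (hκ : 0 ≤ κ) (hr : 1 ≤ r) (hη : 0 < η) :
    1 / (2 * η) ≤ r ^ 2 / (1 + r * Real.sqrt κ) ∨
      ∃ κ' : ℝ, 0 ≤ κ' ∧ κ' ≤ κ ∧ (κ' = 0 ∨ κ' ≤ κ - η / 2) ∧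
        r ^ 2 / (1 + r * Real.sqrt κ') ≤ 2 * (r ^ 2 / (1 + r * Real.sqrt κ)) := by
  have hr0 : 0 < r := by linarith
  rcases lt_or_ge η κ with h | h
  · right
    refine ⟨κ / 2, by linarith, by linarith, Or.inr (by linarith), ?_⟩
    have h1 : Real.sqrt κ ≤ 2 * Real.sqrt (κ / 2) := by
      rw [Real.sqrt_le_left (by positivity), mul_pow, Real.sq_sqrt (by linarith)]
      linarith
    have h2 : r * Real.sqrt κ ≤ r * (2 * Real.sqrt (κ / 2)) := by gcongr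
    rw [← mul_div_assoc, div_le_div_iff₀ (by positivity) (by positivity)]
    have h3 : 0 < r ^ 2 := by positivity
    nlinarith
  · have hs : Real.sqrt κ ≤ Real.sqrt η := Real.sqrt_le_sqrt h
    have hη' : 0 < Real.sqrt η := Real.sqrt_pos.2 hη
    have hηs : Real.sqrt η * Real.sqrt η = η := Real.mul_self_sqrt hη.le
    rcases le_or_gt 1 (r * Real.sqrt η) with h1 | h1
    · left
      have h2 : 1 + r * Real.sqrt κ ≤ 2 * (r * Real.sqrt η) := by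
        have : r * Real.sqrt κ ≤ r * Real.sqrt η := by gcongr
        linarith
      rw [div_le_div_iff₀ (by positivity) (by positivity)]
      have h3 : r * Real.sqrt η ≤ (r * Real.sqrt η) * (r * Real.sqrt η) := by nlinarith
      have h4 : (r * Real.sqrt η) * (r * Real.sqrt η) = r ^ 2 * η := by
        calc (r * Real.sqrt η) * (r * Real.sqrt η) = r ^ 2 * (Real.sqrt η * Real.sqrt η) := by ring
          _ = r ^ 2 * η := by rw [hηs]
      nlinarith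
    · right
      refine ⟨0, le_rfl, hκ, Or.inl rfl, ?_⟩
      rw [Real.sqrt_zero, mul_zero, add_zero, div_one, ← mul_div_assoc,
        le_div_iff₀ (by positivity)]
      have h2 : r * Real.sqrt κ ≤ r * Real.sqrt η := by gcongr
      have h3 : 0 < r ^ 2 := by positivity
      nlinarith

/-- The grid energy. -/
theorem grid_energy2 {E η lam m B : ℝ} {d : ℕ} (hη0 : 0 < η) (hη2 : η ≤ 1 / 2)
    (hlam : 0 < lam) (hmB : |m| ≤ B) (k3 : lam * B < 1) (hEl : |E| ≤ 4 * d + 1) :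
    ∃ n : ℤ, |n| ≤ ((⌈(4 * (d:ℝ) + 3) / η⌉₊ : ℕ) : ℤ) ∧
      |E - ((n:ℝ) * η + lam * m)| ≤ η / 2 := by
  set n : ℤ := round ((E - lam * m) / η) with hn
  have hn1 : |(E - lam * m) / η - n| ≤ 1 / 2 := abs_sub_round _
  have hn2 : |E - lam * m - n * η| ≤ η / 2 := by
    have e1 : E - lam * m - n * η = ((E - lam * m) / η - n) * η := by
      field_simp
    rw [e1, abs_mul, abs_of_pos hη0]
    nlinarith
  have hlm : |lam * m| ≤ lam * B := by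
    rw [abs_mul, abs_of_pos hlam]
    exact mul_le_mul_of_nonneg_left hmB hlam.le
  have hn3 : |(n:ℝ) * η| ≤ 4 * d + 3 := by
    have e1 : |(n:ℝ) * η| ≤ |E| + |lam * m| + |E - lam * m - n * η| := by
      have e2 : (n:ℝ) * η = E - lam * m - (E - lam * m - n * η) := by ring
      calc |(n:ℝ) * η| = |E - lam * m - (E - lam * m - n * η)| := by rw [← e2]
        _ ≤ |E - lam * m| + |E - lam * m - n * η| := abs_sub _ _
        _ ≤ _ := by
            have := abs_sub E (lam * m)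
            linarith
    linarith
  refine ⟨n, ?_, ?_⟩
  · have e1 : |(n:ℝ)| ≤ ((⌈(4 * (d:ℝ) + 3) / η⌉₊ : ℕ) : ℝ) := by
      refine le_trans ?_ (Nat.le_ceil _)
      rw [le_div_iff₀ hη0]
      rwa [abs_mul, abs_of_pos hη0] at hn3
    exact_mod_cast e1
  · have e1 : E - ((n:ℝ) * η + lam * m) = E - lam * m - n * η := by ring
    rw [e1]
    exact hn2

/-- The local estimate for all functions, at all energies. -/
theorem every2 (d : ℕ) (hall : S_ALL d) (A : ℝ) (hA : 0 < A) (b : ℝ) :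
    ∃ C lam0 : ℝ, 0 < C ∧ 0 < lam0 ∧
      ∀ (μ : Measure ℝ) [IsProbabilityMeasure μ], (∀ᵐ t ∂μ, |t| ≤ b) →
      ∀ lam : ℝ, 0 < lam → lam < lam0 → ∀ (L : ℕ) [NeZero L], lam ^ (-(2:ℝ)) ≤ (L:ℝ) →
        ∃ Bad : Set (T d L → ℝ), MeasurableSet Bad ∧
          (Measure.pi fun _ : T d L => μ).real Bad ≤ (L:ℝ) ^ (-A) ∧
          ∀ V, V ∉ Bad → ∀ (E κ : ℝ) (u : T d L → ℂ), |E| ≤ 4 * d + 1 → 0 ≤ κ → κ ≤ 1 →
            (∀ j : ℕ, j ≤ d → κ ≤ |E - lam * (∫ t, t ∂μ) - 4 * j|) →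
            ∀ (y : T d L) (r : ℝ), 1 ≤ r → r ≤ lam ^ (-(2:ℝ)) →
              ∑ x ∈ cub y r, ‖u x‖ ^ 2 ≤
                C * lam ^ 2 * Real.log (1 / lam) ^ 4 * Real.log L *
                  (r ^ 2 / (1 + r * Real.sqrt κ)) *
                  (∑ x ∈ cub y (lam ^ (-(2:ℝ))), ‖u x‖ ^ 2 +
                    lam ^ (-(4:ℝ)) * ∑ x ∈ cub y (lam ^ (-(2:ℝ))),
                      ‖Hz ((E:ℝ):ℂ) lam V u x‖ ^ 2) := by
  obtain ⟨C2, hC2, diag1⟩ := diag_all hall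
  obtain ⟨C1, hC1, slab1⟩ := hall
  obtain ⟨B, hB⟩ : ∃ B : ℝ, B = |b| + 1 := ⟨_, rfl⟩
  have hB0 : 0 < B := by rw [hB]; positivity
  have hbB : b ≤ B := by rw [hB]; have := le_abs_self b; linarith
  obtain ⟨K, hK⟩ : ∃ K : ℝ, K = d + 3 + A := ⟨_, rfl⟩
  have hK0 : 0 < K := by rw [hK]; positivity
  obtain ⟨D, η1, lam0, hD1, hη10, hη12, -, hlam0, hDK, hpar⟩ :=
    params 4 B (2 * C2) K (by norm_num) hB0 (by positivity) d
  have hD0 : 0 < D := by linarith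
  obtain ⟨C, hCd⟩ : ∃ C : ℝ, C = D / η1 + 24 * C1 * (64 * d ^ 2 + 16) * D := ⟨_, rfl⟩
  have hCD1 : D / η1 ≤ C := by
    have : 0 ≤ 24 * C1 * (64 * (d:ℝ) ^ 2 + 16) * D := by positivity
    linarith
  have hCD : D ≤ C := by
    refine le_trans ?_ hCD1
    rw [le_div_iff₀ hη10]
    nlinarith
  have hCD2 : 24 * C1 * (64 * d ^ 2 + 16) * D ≤ C := by
    have : 0 < D / η1 := by positivity
    linarith
  have hC0 : 0 < C := by linarith
  refine ⟨C, lam0, hC0, hlam0, ?_⟩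
  intro μ _ hμ lam hlam hlam1 L _ hL1
  obtain ⟨-, k3, hL8, hl4, hℓ2, hΛ4, hm2p, hm2, hm24⟩ := hpar lam hlam hlam1 L hL1
  obtain ⟨ℓ, hℓ⟩ : ∃ ℓ : ℝ, ℓ = Real.log (1 / lam) := ⟨_, rfl⟩
  obtain ⟨Λ, hΛ⟩ : ∃ Λ : ℝ, Λ = Real.log L := ⟨_, rfl⟩
  rw [← hℓ] at hℓ2 ⊢
  rw [← hΛ] at hΛ4 ⊢
  have hL0 : (0:ℝ) < L := by linarith
  have hm2' : lam ^ (-(2:ℝ)) = (lam ^ 2)⁻¹ := eq_inv_of_mul_eq_one_left hm2p
  have hlq : 0 < lam ^ 2 := by positivity
  obtain ⟨η, hη⟩ : ∃ η : ℝ, η = D * lam ^ 2 * ℓ ^ 2 * Λ := ⟨_, rfl⟩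
  have hℓ0 : 0 < ℓ := by linarith
  have hΛ0 : 0 < Λ := by linarith
  have hη0 : 0 < η := by rw [hη]; positivity
  have hℓ24 : 4 ≤ ℓ ^ 2 := by nlinarith
  have hηlow : 8 * lam ^ 2 ≤ η := by
    have h1 : 8 ≤ ℓ ^ 2 * Λ := by nlinarith
    calc 8 * lam ^ 2 = 1 * (lam ^ 2) * 8 := by ring
      _ ≤ D * lam ^ 2 * (ℓ ^ 2 * Λ) := by gcongr
      _ = η := by rw [hη]; ring
  -- the trivial case
  have htriv : ∀ P : ℝ, 1 / (2 * η) ≤ P ∨ (η1 < η ∧ 1 / 2 ≤ P) →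
      1 ≤ C * lam ^ 2 * ℓ ^ 4 * Λ * P := by
    intro P hP
    have e1 : C * lam ^ 2 * ℓ ^ 4 * Λ * P = (C / D) * (η * ℓ ^ 2) * P := by
      rw [hη]; field_simp
    rw [e1]
    have hCD' : 1 ≤ C / D := by rw [le_div_iff₀ hD0]; linarith
    rcases hP with hP | ⟨hP, hP1⟩
    · rw [div_le_iff₀ (by positivity)] at hP
      calc (1:ℝ) ≤ 1 * (P * (2 * η)) := by linarith
        _ ≤ (C / D) * (P * (4 * η)) := by
            have hP0 : 0 < P := by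
              by_contra h
              push Not at h
              nlinarith
            gcongr
            norm_num
        _ ≤ (C / D) * (P * (ℓ ^ 2 * η)) := by
            have hP0 : 0 < P := by
              by_contra h
              push Not at h
              nlinarith
            gcongr
        _ = _ := by ring
    · have h1 : 1 / η1 ≤ C / D := by
        rw [div_le_div_iff₀ hη10 hD0]
        rw [div_le_iff₀ hη10] at hCD1
        linarith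
      have h2 : 1 ≤ η / η1 := by
        rw [le_div_iff₀ hη10]
        linarith
      calc (1:ℝ) ≤ (η / η1) * (4 * (1 / 2)) := by linarith
        _ = (1 / η1) * (η * 4) * (1 / 2) := by ring
        _ ≤ (C / D) * (η * ℓ ^ 2) * P := by gcongr
  -- the trivial bound
  have hT : ∀ (V : T d L → ℝ) (E : ℝ) (u : T d L → ℂ) (y : T d L) (r P : ℝ),
      r ≤ lam ^ (-(2:ℝ)) → 1 ≤ C * lam ^ 2 * ℓ ^ 4 * Λ * P →
      ∑ x ∈ cub y r, ‖u x‖ ^ 2 ≤ C * lam ^ 2 * ℓ ^ 4 * Λ * P *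
        (∑ x ∈ cub y (lam ^ (-(2:ℝ))), ‖u x‖ ^ 2 + lam ^ (-(4:ℝ)) *
          ∑ x ∈ cub y (lam ^ (-(2:ℝ))), ‖Hz ((E:ℝ):ℂ) lam V u x‖ ^ 2) := by
    intro V E u y r P hr2 h2
    have h1 : ∑ x ∈ cub y r, ‖u x‖ ^ 2 ≤ ∑ x ∈ cub y (lam ^ (-(2:ℝ))), ‖u x‖ ^ 2 :=
      Finset.sum_le_sum_of_subset_of_nonneg (cub_mono hr2) fun _ _ _ => by positivity
    have hnn : 0 ≤ ∑ x ∈ cub y (lam ^ (-(2:ℝ))), ‖u x‖ ^ 2 :=
      Finset.sum_nonneg fun _ _ => by positivity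
    have hnn2 : 0 ≤ lam ^ (-(4:ℝ)) * ∑ x ∈ cub y (lam ^ (-(2:ℝ))),
        ‖Hz ((E:ℝ):ℂ) lam V u x‖ ^ 2 := mul_nonneg (Real.rpow_nonneg hlam.le _)
      (Finset.sum_nonneg fun _ _ => by positivity)
    refine h1.trans ?_
    refine le_trans ?_ (le_mul_of_one_le_left (add_nonneg hnn hnn2) h2)
    linarith
  by_cases hcase : η1 < η
  · exact ⟨∅, MeasurableSet.empty, by simp; positivity, fun V _ E κ u _ hκ hκ1 _ y r hr1 hr2 =>
      hT V E u y r _ hr2 (htriv _ (Or.inr ⟨hcase, by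
        have := phi_ge (κ := κ) hκ1 hr1
        linarith⟩))⟩
  replace hcase := not_lt.1 hcase
  have hη2 : η ≤ 1 / 2 := hcase.trans hη12
  have hlogη : Real.log (1 / η) ≤ 2 * ℓ := by
    have h1 : 1 / η ≤ (1 / lam) ^ 2 := by
      rw [one_div_pow]
      apply one_div_le_one_div_of_le hlq
      linarith
    have h2 := Real.log_le_log (by positivity) h1
    rw [hℓ]
    rwa [Real.log_pow, Nat.cast_ofNat] at h2
  have hlogη0 : 0 ≤ Real.log (1 / η) := Real.log_nonneg (by rw [le_div_iff₀ hη0]; linarith)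
  have hlog2 : Real.log (1 / η) ^ 2 ≤ (2 * ℓ) ^ 2 := pow_le_pow_left₀ hlogη0 hlogη 2
  have hLη : 1 / (L:ℝ) ≤ η := by
    rw [div_le_iff₀ hL0]
    have h1 : 8 * lam ^ 2 * lam ^ (-(2:ℝ)) ≤ η * L := by gcongr
    have h2 : 8 * lam ^ 2 * lam ^ (-(2:ℝ)) = 8 := by
      rw [mul_assoc, mul_comm (lam ^ 2), hm2p]; norm_num
    linarith
  have hηi : η⁻¹ ≤ lam ^ (-(2:ℝ)) := by
    rw [hm2']
    apply inv_anti₀ hlq
    linarith
  -- the mean
  obtain ⟨m, hm⟩ : ∃ m : ℝ, ∫ t, t ∂μ = m := ⟨_, rfl⟩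
  have hμB : ∀ᵐ t ∂μ, |t| ≤ B := hμ.mono fun t ht => ht.trans hbB
  have hmB : |m| ≤ B := by
    have h1 := norm_integral_le_of_norm_le_const (μ := μ) (f := fun t : ℝ => t) (C := B)
      (hμB.mono fun t ht => by simpa using ht)
    rw [hm] at h1
    simpa using h1
  have hμ2 : ∀ᵐ t ∂μ, |t - m| ≤ 2 * B := by
    filter_upwards [hμB] with t ht
    have := abs_sub t m
    linarith
  obtain ⟨p, hp⟩ : ∃ p : ℕ, p = ⌈Λ⌉₊ := ⟨_, rfl⟩
  have hpX : Λ ≤ p := by rw [hp]; exact Nat.le_ceil Λ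
  have hpX2 : (p:ℝ) ≤ 2 * Λ := by
    have := Nat.ceil_lt_add_one (show (0:ℝ) ≤ Λ by linarith)
    rw [← hp] at this
    linarith
  have hp1 : 1 ≤ p := by
    have : (1:ℝ) ≤ p := by linarith
    exact_mod_cast this
  obtain ⟨G, hG⟩ : ∃ G : ℝ, G = C2 * Real.log (1 / η) ^ 2 := ⟨_, rfl⟩
  have hG0 : 0 ≤ G := by rw [hG]; positivity
  have hG2 : G ≤ C2 * (2 * ℓ) ^ 2 := by rw [hG]; exact mul_le_mul_of_nonneg_left hlog2 hC2.le
  have hexpL : Real.exp Λ = L := by rw [hΛ]; exact Real.exp_log hL0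
  have hqq : 16 * (2 * B) ^ 2 * p * G * lam ^ 2 / η ≤ Real.exp (-K) := by
    rw [div_le_iff₀ hη0]
    calc 16 * (2 * B) ^ 2 * p * G * lam ^ 2
        ≤ 16 * (2 * B) ^ 2 * (2 * Λ) * (C2 * (2 * ℓ) ^ 2) * lam ^ 2 := by gcongr
      _ = (256 * B ^ 2 * (2 * C2)) * (lam ^ 2 * ℓ ^ 2 * Λ) := by ring
      _ = Real.exp (-K) * ((256 * B ^ 2 * (2 * C2) * Real.exp K) * (lam ^ 2 * ℓ ^ 2 * Λ)) := by
          rw [Real.exp_neg]
          have := (Real.exp_pos K).ne'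
          field_simp
      _ ≤ Real.exp (-K) * (D * (lam ^ 2 * ℓ ^ 2 * Λ)) := by gcongr
      _ = Real.exp (-K) * η := by rw [hη]; ring
  obtain ⟨M, hM⟩ : ∃ M : ℕ, M = ⌈(4 * (d:ℝ) + 3) / η⌉₊ := ⟨_, rfl⟩
  obtain ⟨Bad, b1, b2, b3⟩ := grid (d := d) (L := L) (G := G) (q := Real.exp (-K)) hη0 hlam
    (by positivity : (0:ℝ) ≤ 2 * B) (fun n : ℤ => True)
    (fun n _ => by rw [hG]; exact diag1 L η hLη hη2 _) μ hμ2 hm p hp1 (Real.exp_pos _).le hG0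
    hqq M
  refine ⟨Bad, b1, b2.trans ?_, ?_⟩
  · have e2 : (2 * (M:ℝ) + 1) ≤ Real.exp (2 * Λ) := by
      have e3 : (M:ℝ) ≤ (4 * d + 3) / η + 1 := by
        rw [hM]
        exact (Nat.ceil_lt_add_one (by positivity)).le
      have e4 : (4 * (d:ℝ) + 3) / η ≤ (4 * d + 3) * L := by
        rw [div_eq_mul_inv]
        exact mul_le_mul_of_nonneg_left (hηi.trans hL1) (by positivity)
      have e5 : Real.exp (2 * Λ) = (L:ℝ) * L := by
        rw [two_mul, Real.exp_add, hexpL]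
      have e6 : (8 * (d:ℝ) + 9) * L ≤ L * L := mul_le_mul_of_nonneg_right hL8 hL0.le
      have hd0 : (0:ℝ) ≤ d := Nat.cast_nonneg d
      rw [e5]
      linarith
    have e3 : (L:ℝ) ^ d * Real.exp (-K) ^ p ≤ Real.exp (-((3 + A) * Λ)) := by
      rw [← hexpL, ← Real.exp_nat_mul, ← Real.exp_nat_mul, ← Real.exp_add]
      apply Real.exp_le_exp.2
      have h1 : Λ * K ≤ p * K := mul_le_mul_of_nonneg_right hpX hK0.le
      have h2 : Λ * K = d * Λ + (3 + A) * Λ := by rw [hK]; ring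
      linarith
    calc (2 * (M:ℝ) + 1) * ((L:ℝ) ^ d * Real.exp (-K) ^ p)
        ≤ Real.exp (2 * Λ) * Real.exp (-((3 + A) * Λ)) := by gcongr
      _ = Real.exp (-((1 + A) * Λ)) := by rw [← Real.exp_add]; congr 1; ring
      _ ≤ Real.exp (Λ * (-A)) := by
          apply Real.exp_le_exp.2
          linarith
      _ = (L:ℝ) ^ (-A) := by rw [Real.rpow_def_of_pos hL0, hΛ]
  · intro V hV E κ u hEl hκ hκ1 hE y r hr1 hr2
    rw [hm] at hE
    have hr0 : 0 ≤ r := by linarith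
    rcases phi_cases hκ hr1 hη0 with hP | ⟨κ', hκ0', hκκ, hκ2, hP⟩
    · exact hT V E u y r _ hr2 (htriv _ (Or.inl hP))
    by_cases hr3 : r ≤ 1 / η
    swap
    · replace hr3 := not_le.1 hr3
      refine hT V E u y r _ hr2 (htriv _ (Or.inl (le_trans ?_ (phi_ge hκ1 hr1))))
      have e1 : 1 / (2 * η) = (1 / η) / 2 := by field_simp
      rw [e1]
      linarith
    obtain ⟨n, hn1, hn2⟩ := grid_energy2 hη0 hη2 hlam hmB k3 hEl
    have hX3 := b3 V hV n (by rw [hM]; exact hn1) trivial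
    have hgood : ∀ j : ℕ, j ≤ d → κ' ≤ |(n:ℝ) * η - 4 * j| := by
      intro j hj
      rcases hκ2 with h | h
      · rw [h]; exact abs_nonneg _
      · have e1 := hE j hj
        have e2 : |E - lam * m - 4 * j| ≤ |(n:ℝ) * η - 4 * j| + |E - ((n:ℝ) * η + lam * m)| := by
          have e3 : E - lam * m - 4 * (j:ℝ) =
              ((n:ℝ) * η - 4 * j) + (E - ((n:ℝ) * η + lam * m)) := by ring
          rw [e3]
          exact abs_add_le _ _
        linarith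
    have hφ0 : 0 < r ^ 2 / (1 + r * Real.sqrt κ) := phi_pos hr1
    have hφ0' : 0 < r ^ 2 / (1 + r * Real.sqrt κ') := phi_pos hr1
    have hmain := local3 (E := (n:ℝ) * η) (E' := E) (lam := lam) (m := m)
      (Θ := C1 * (r ^ 2 / (1 + r * Real.sqrt κ')) * Real.log (1 / η) ^ 2)
      (R := lam ^ (-(2:ℝ))) hη0 V hX3 (by positivity) y r
      (fun g => slab1 L η hLη hη2 ((n:ℝ) * η) κ' hκ0' (hκκ.trans hκ1) hgood g y r hr1)
      (hn2.trans (by linarith))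
      (by
        have e1 : 2 / η ≤ lam ^ (-(2:ℝ)) / 4 := by
          rw [div_le_iff₀ hη0, hm2']
          calc (2:ℝ) = (lam ^ 2)⁻¹ / 4 * (8 * lam ^ 2) := by field_simp; norm_num
            _ ≤ (lam ^ 2)⁻¹ / 4 * η := by gcongr
        linarith) u hr3
    refine hmain.trans ?_
    have hnn : 0 ≤ ∑ x ∈ cub y (lam ^ (-(2:ℝ))), ‖u x‖ ^ 2 :=
      Finset.sum_nonneg fun _ _ => by positivity
    have hnn2 : 0 ≤ ∑ x ∈ cub y (lam ^ (-(2:ℝ))), ‖Hz ((E:ℝ):ℂ) lam V u x‖ ^ 2 :=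
      Finset.sum_nonneg fun _ _ => by positivity
    generalize ∑ x ∈ cub y (lam ^ (-(2:ℝ))), ‖u x‖ ^ 2 = D' at hnn ⊢
    generalize ∑ x ∈ cub y (lam ^ (-(2:ℝ))), ‖Hz ((E:ℝ):ℂ) lam V u x‖ ^ 2 = K' at hnn2 ⊢
    generalize r ^ 2 / (1 + r * Real.sqrt κ) = P at hφ0 hP ⊢
    generalize r ^ 2 / (1 + r * Real.sqrt κ') = P' at hφ0' hP ⊢
    have hη44 : η⁻¹ ≤ η * lam ^ (-(4:ℝ)) := by
      have e1 : lam ^ (-(4:ℝ)) = lam ^ (-(2:ℝ)) * lam ^ (-(2:ℝ)) := by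
        rw [← Real.rpow_add hlam]; norm_num
      have e2 : η⁻¹ = η * (η⁻¹ * η⁻¹) := by field_simp
      rw [e1, e2]
      have e3 : 0 < η⁻¹ := inv_pos.2 hη0
      gcongr
    have h4 : 0 < lam ^ (-(4:ℝ)) := Real.rpow_pos_of_pos hlam _
    have h5 : 3 * η * D' + 2 * η⁻¹ * K' ≤ 3 * η * (D' + lam ^ (-(4:ℝ)) * K') := by
      have e3 : η⁻¹ * K' ≤ (η * lam ^ (-(4:ℝ))) * K' := mul_le_mul_of_nonneg_right hη44 hnn2
      have e5 : 0 ≤ η * (lam ^ (-(4:ℝ)) * K') := by positivity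
      linarith
    have hW : 0 ≤ D' + lam ^ (-(4:ℝ)) * K' := by positivity
    generalize D' + lam ^ (-(4:ℝ)) * K' = W at h5 hW ⊢
    calc C1 * P' * Real.log (1 / η) ^ 2 * (64 * (d:ℝ) ^ 2 + 16) *
        (3 * η * D' + 2 * η⁻¹ * K')
        ≤ C1 * P' * Real.log (1 / η) ^ 2 * (64 * (d:ℝ) ^ 2 + 16) * (3 * η * W) :=
          mul_le_mul_of_nonneg_left h5 (by positivity)
      _ ≤ C1 * (2 * P) * (2 * ℓ) ^ 2 * (64 * (d:ℝ) ^ 2 + 16) * (3 * η * W) := by gcongr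
      _ = (24 * C1 * (64 * d ^ 2 + 16) * D) * (lam ^ 2 * ℓ ^ 4 * Λ * P * W) := by
          rw [hη]; ring
      _ ≤ C * (lam ^ 2 * ℓ ^ 4 * Λ * P * W) := by gcongr
      _ = _ := by ring

end Pool.Agent.Zk60.AE
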