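import Pool.Agent.Zk60.AE.All3

/-!
The local estimate at all energies, with one logarithm in the slab estimate (`d ≥ 3`).
-/

set_option autoImplicit false
set_option linter.unusedSectionVars false

open scoped BigOperators
open MeasureTheory Filter Topology

namespace Pool.Agent.Zk60.AE

open Pool.Agent.W788.MFP.Four (T e NN adj adj_neg e_comm e_add_left e_add e_zero e_neg e_neg_left
  e_normSq sum_e NN_pos card_T e_single)
open Pool.Agent.Zk11.QD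

/-- the diagonal, from the slab estimate at all energies -/
theorem diag_all1 {d : ℕ} (h : S_ALL1 d) :
    ∃ C : ℝ, 0 < C ∧ ∀ (L : ℕ) [NeZero L] (η : ℝ), 1 / (L : ℝ) ≤ η → η ≤ 1 / 2 → ∀ E : ℝ,
      (NN d L)⁻¹ * ∑ k : T d L, tw E η k ^ 2 ≤ C * Real.log (1 / η) := by
  obtain ⟨C, hC, h2⟩ := h
  refine ⟨C, hC, ?_⟩
  intro L _ η hη1 hη2 E
  have hN := NN_pos (d := d) (L := L)
  set g : T d L → ℂ := fun k => (tw E η k : ℂ) with hg
  set A := (NN d L)⁻¹ * ∑ k : T d L, tw E η k ^ 2 with hA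
  have hA0 : 0 ≤ A := mul_nonneg (inv_nonneg.2 hN.le) (Finset.sum_nonneg fun _ _ => by positivity)
  have h3 := h2 L η hη1 hη2 E 0 le_rfl zero_le_one (fun j _ => abs_nonneg _) g 0 1 le_rfl
  have h4 : ((NN d L)⁻¹ * ∑ k : T d L, ‖g k‖ ^ 2) = A := by
    rw [hA]
    congr 1
    refine Finset.sum_congr rfl fun k _ => ?_
    rw [hg, Complex.norm_real, Real.norm_eq_abs, sq_abs]
  rw [h4] at h3
  have h5 : ‖kc (fun k : T d L => (tw E η k : ℂ) * g k) 0‖ = A := by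
    unfold kc
    simp only [e_zero, mul_one]
    rw [norm_mul, norm_inv, Complex.norm_real, Real.norm_eq_abs, abs_of_pos hN, hA]
    congr 1
    have h6 : ∑ k : T d L, (tw E η k : ℂ) * g k = ((∑ k : T d L, tw E η k ^ 2 : ℝ) : ℂ) := by
      push_cast
      refine Finset.sum_congr rfl fun k _ => ?_
      rw [hg]
      ring
    rw [h6, Complex.norm_real, Real.norm_eq_abs,
      abs_of_nonneg (Finset.sum_nonneg fun _ _ => by positivity)]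
  have h6 : A ^ 2 ≤ C * (1 ^ 2 / (1 + 1 * Real.sqrt 0)) * Real.log (1 / η) * A := by
    refine le_trans ?_ h3
    rw [← h5]
    refine Finset.single_le_sum
      (f := fun x : T d L => ‖kc (fun k => (tw E η k : ℂ) * g k) x‖ ^ 2)
      (fun x _ => sq_nonneg _) ?_
    refine Finset.mem_filter.2 ⟨Finset.mem_univ _, fun i => ?_⟩
    simp
  have h6' : C * (1 ^ 2 / (1 + 1 * Real.sqrt 0)) * Real.log (1 / η) * A =
      C * Real.log (1 / η) * A := by simp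
  rw [h6'] at h6
  rcases hA0.eq_or_lt with h7 | h7
  · rw [← h7]
    have hL : (0 : ℝ) < L := by exact_mod_cast Nat.pos_of_ne_zero (NeZero.ne L)
    have hη0 : 0 < η := lt_of_lt_of_le (by positivity : (0 : ℝ) < 1 / L) hη1
    have h8 := log_ge η hη0 hη2
    have h9 : 0 < Real.log (1 / η) := by linarith
    positivity
  · have h8 : A * A ≤ (C * Real.log (1 / η)) * A := by nlinarith
    exact le_of_mul_le_mul_right h8 h7

/-- The local estimate for all functions, at all energies. -/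
theorem every3 (d : ℕ) (hall : S_ALL1 d) (A : ℝ) (hA : 0 < A) (b : ℝ) :
    ∃ C lam0 : ℝ, 0 < C ∧ 0 < lam0 ∧
      ∀ (μ : Measure ℝ) [IsProbabilityMeasure μ], (∀ᵐ t ∂μ, |t| ≤ b) →
      ∀ lam : ℝ, 0 < lam → lam < lam0 → ∀ (L : ℕ) [NeZero L], lam ^ (-(2:ℝ)) ≤ (L:ℝ) →
        ∃ Bad : Set (T d L → ℝ), MeasurableSet Bad ∧
          (Measure.pi fun _ : T d L => μ).real Bad ≤ (L:ℝ) ^ (-A) ∧
          ∀ V, V ∉ Bad → ∀ (E κ : ℝ) (u : T d L → ℂ), |E| ≤ 4 * d + 1 → 0 ≤ κ → κ ≤ 1 →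
            (∀ j : ℕ, j ≤ d → κ ≤ |E - lam * (∫ t, t ∂μ) - 4 * j|) →
            ∀ (y : T d L) (r : ℝ), 1 ≤ r → r ≤ lam ^ (-(2:ℝ)) →
              ∑ x ∈ cub y r, ‖u x‖ ^ 2 ≤
                C * lam ^ 2 * Real.log (1 / lam) ^ 2 * Real.log L *
                  (r ^ 2 / (1 + r * Real.sqrt κ)) *
                  (∑ x ∈ cub y (lam ^ (-(2:ℝ))), ‖u x‖ ^ 2 +
                    lam ^ (-(4:ℝ)) * ∑ x ∈ cub y (lam ^ (-(2:ℝ))),
                      ‖Hz ((E:ℝ):ℂ) lam V u x‖ ^ 2) := by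
  obtain ⟨C2, hC2, diag1⟩ := diag_all1 hall
  obtain ⟨C1, hC1, slab1⟩ := hall
  obtain ⟨B, hB⟩ : ∃ B : ℝ, B = |b| + 1 := ⟨_, rfl⟩
  have hB0 : 0 < B := by rw [hB]; positivity
  have hbB : b ≤ B := by rw [hB]; have := le_abs_self b; linarith
  obtain ⟨K, hK⟩ : ∃ K : ℝ, K = d + 3 + A := ⟨_, rfl⟩
  have hK0 : 0 < K := by rw [hK]; positivity
  obtain ⟨D, η1, lam0, hD1, hη10, hη12, -, hlam0, hDK, hpar⟩ :=
    params 4 B C2 K (by norm_num) hB0 hC2 d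
  have hD0 : 0 < D := by linarith
  obtain ⟨C, hCd⟩ : ∃ C : ℝ, C = D / η1 + 12 * C1 * (64 * d ^ 2 + 16) * D := ⟨_, rfl⟩
  have hCD1 : D / η1 ≤ C := by
    have : 0 ≤ 12 * C1 * (64 * (d:ℝ) ^ 2 + 16) * D := by positivity
    linarith
  have hCD : D ≤ C := by
    refine le_trans ?_ hCD1
    rw [le_div_iff₀ hη10]
    nlinarith
  have hCD2 : 12 * C1 * (64 * d ^ 2 + 16) * D ≤ C := by
    have : 0 < D / η1 := by positivity
    linarith
  have hC0 : 0 < C := by linarith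
  refine ⟨C, lam0, hC0, hlam0, ?_⟩
  intro μ _ hμ lam hlam hlam1 L _ hL1
  obtain ⟨-, k3, hL8, hl4, hℓ2, hΛ4, hm2p, hm2, hm24⟩ := hpar lam hlam hlam1 L hL1
  obtain ⟨ℓ, hℓ⟩ : ∃ ℓ : ℝ, ℓ = Real.log (1 / lam) := ⟨_, rfl⟩
  obtain ⟨Λ, hΛ⟩ : ∃ Λ : ℝ, Λ = Real.log L := ⟨_, rfl⟩
  rw [← hℓ] at hℓ2 ⊢
  rw [← hΛ] at hΛ4 ⊢
  have hL0 : (0:ℝ) < L := by linarith
  have hm2' : lam ^ (-(2:ℝ)) = (lam ^ 2)⁻¹ := eq_inv_of_mul_eq_one_left hm2p
  have hlq : 0 < lam ^ 2 := by positivity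
  obtain ⟨η, hη⟩ : ∃ η : ℝ, η = D * lam ^ 2 * ℓ * Λ := ⟨_, rfl⟩
  have hℓ0 : 0 < ℓ := by linarith
  have hΛ0 : 0 < Λ := by linarith
  have hη0 : 0 < η := by rw [hη]; positivity
  have hℓ24 : 4 ≤ ℓ ^ 2 := by nlinarith
  have hηlow : 8 * lam ^ 2 ≤ η := by
    have h1 : 8 ≤ ℓ * Λ := by nlinarith
    calc 8 * lam ^ 2 = 1 * (lam ^ 2) * 8 := by ring
      _ ≤ D * lam ^ 2 * (ℓ * Λ) := by gcongr
      _ = η := by rw [hη]; ring
  -- the trivial case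
  have htriv : ∀ P : ℝ, 1 / (2 * η) ≤ P ∨ (η1 < η ∧ 1 / 2 ≤ P) →
      1 ≤ C * lam ^ 2 * ℓ ^ 2 * Λ * P := by
    intro P hP
    have e1 : C * lam ^ 2 * ℓ ^ 2 * Λ * P = (C / D) * (η * ℓ) * P := by
      rw [hη]; field_simp
    rw [e1]
    have hCD' : 1 ≤ C / D := by rw [le_div_iff₀ hD0]; linarith
    rcases hP with hP | ⟨hP, hP1⟩
    · rw [div_le_iff₀ (by positivity)] at hP
      calc (1:ℝ) ≤ 1 * (P * (2 * η)) := by linarith
        _ ≤ (C / D) * (P * (ℓ * η)) := by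
            have hP0 : 0 < P := by
              by_contra h
              push Not at h
              nlinarith
            gcongr
        _ = _ := by ring
    · have h1 : 1 / η1 ≤ C / D := by
        rw [div_le_div_iff₀ hη10 hD0]
        rw [div_le_iff₀ hη10] at hCD1
        linarith
      have h2 : 1 ≤ η / η1 := by
        rw [le_div_iff₀ hη10]
        linarith
      calc (1:ℝ) ≤ (η / η1) * (2 * (1 / 2)) := by linarith
        _ = (1 / η1) * (η * 2) * (1 / 2) := by ring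
        _ ≤ (C / D) * (η * ℓ) * P := by gcongr
  -- the trivial bound
  have hT : ∀ (V : T d L → ℝ) (E : ℝ) (u : T d L → ℂ) (y : T d L) (r P : ℝ),
      r ≤ lam ^ (-(2:ℝ)) → 1 ≤ C * lam ^ 2 * ℓ ^ 2 * Λ * P →
      ∑ x ∈ cub y r, ‖u x‖ ^ 2 ≤ C * lam ^ 2 * ℓ ^ 2 * Λ * P *
        (∑ x ∈ cub y (lam ^ (-(2:ℝ))), ‖u x‖ ^ 2 + lam ^ (-(4:ℝ)) *
          ∑ x ∈ cub y (lam ^ (-(2:ℝ))), ‖Hz ((E:ℝ):ℂ) lam V u x‖ ^ 2) := by
    intro V E u y r P hr2 h2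
    have h1 : ∑ x ∈ cub y r, ‖u x‖ ^ 2 ≤ ∑ x ∈ cub y (lam ^ (-(2:ℝ))), ‖u x‖ ^ 2 :=
      Finset.sum_le_sum_of_subset_of_nonneg (cub_mono hr2) fun _ _ _ => by positivity
    have hnn : 0 ≤ ∑ x ∈ cub y (lam ^ (-(2:ℝ))), ‖u x‖ ^ 2 :=
      Finset.sum_nonneg fun _ _ => by positivity
    have hnn2 : 0 ≤ lam ^ (-(4:ℝ)) * ∑ x ∈ cub y (lam ^ (-(2:ℝ))),
        ‖Hz ((E:ℝ):ℂ) lam V u x‖ ^ 2 := mul_nonneg (Real.rpow_nonneg hlam.le _)
      (Finset.sum_nonneg fun _ _ => by positivity)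
    refine h1.trans ?_
    refine le_trans ?_ (le_mul_of_one_le_left (add_nonneg hnn hnn2) h2)
    linarith
  by_cases hcase : η1 < η
  · exact ⟨∅, MeasurableSet.empty, by simp; positivity, fun V _ E κ u _ hκ hκ1 _ y r hr1 hr2 =>
      hT V E u y r _ hr2 (htriv _ (Or.inr ⟨hcase, by
        have := phi_ge (κ := κ) hκ1 hr1
        linarith⟩))⟩
  replace hcase := not_lt.1 hcase
  have hη2 : η ≤ 1 / 2 := hcase.trans hη12
  have hlogη : Real.log (1 / η) ≤ 2 * ℓ := by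
    have h1 : 1 / η ≤ (1 / lam) ^ 2 := by
      rw [one_div_pow]
      apply one_div_le_one_div_of_le hlq
      linarith
    have h2 := Real.log_le_log (by positivity) h1
    rw [hℓ]
    rwa [Real.log_pow, Nat.cast_ofNat] at h2
  have hlogη0 : 0 ≤ Real.log (1 / η) := Real.log_nonneg (by rw [le_div_iff₀ hη0]; linarith)
  have hLη : 1 / (L:ℝ) ≤ η := by
    rw [div_le_iff₀ hL0]
    have h1 : 8 * lam ^ 2 * lam ^ (-(2:ℝ)) ≤ η * L := by gcongr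
    have h2 : 8 * lam ^ 2 * lam ^ (-(2:ℝ)) = 8 := by
      rw [mul_assoc, mul_comm (lam ^ 2), hm2p]; norm_num
    linarith
  have hηi : η⁻¹ ≤ lam ^ (-(2:ℝ)) := by
    rw [hm2']
    apply inv_anti₀ hlq
    linarith
  -- the mean
  obtain ⟨m, hm⟩ : ∃ m : ℝ, ∫ t, t ∂μ = m := ⟨_, rfl⟩
  have hμB : ∀ᵐ t ∂μ, |t| ≤ B := hμ.mono fun t ht => ht.trans hbB
  have hmB : |m| ≤ B := by
    have h1 := norm_integral_le_of_norm_le_const (μ := μ) (f := fun t : ℝ => t) (C := B)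
      (hμB.mono fun t ht => by simpa using ht)
    rw [hm] at h1
    simpa using h1
  have hμ2 : ∀ᵐ t ∂μ, |t - m| ≤ 2 * B := by
    filter_upwards [hμB] with t ht
    have := abs_sub t m
    linarith
  obtain ⟨p, hp⟩ : ∃ p : ℕ, p = ⌈Λ⌉₊ := ⟨_, rfl⟩
  have hpX : Λ ≤ p := by rw [hp]; exact Nat.le_ceil Λ
  have hpX2 : (p:ℝ) ≤ 2 * Λ := by
    have := Nat.ceil_lt_add_one (show (0:ℝ) ≤ Λ by linarith)
    rw [← hp] at this
    linarith
  have hp1 : 1 ≤ p := by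
    have : (1:ℝ) ≤ p := by linarith
    exact_mod_cast this
  obtain ⟨G, hG⟩ : ∃ G : ℝ, G = C2 * Real.log (1 / η) := ⟨_, rfl⟩
  have hG0 : 0 ≤ G := by rw [hG]; positivity
  have hG2 : G ≤ C2 * (2 * ℓ) := by rw [hG]; exact mul_le_mul_of_nonneg_left hlogη hC2.le
  have hexpL : Real.exp Λ = L := by rw [hΛ]; exact Real.exp_log hL0
  have hqq : 16 * (2 * B) ^ 2 * p * G * lam ^ 2 / η ≤ Real.exp (-K) := by
    rw [div_le_iff₀ hη0]
    calc 16 * (2 * B) ^ 2 * p * G * lam ^ 2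
        ≤ 16 * (2 * B) ^ 2 * (2 * Λ) * (C2 * (2 * ℓ)) * lam ^ 2 := by gcongr
      _ = (256 * B ^ 2 * C2) * (lam ^ 2 * ℓ * Λ) := by ring
      _ = Real.exp (-K) * ((256 * B ^ 2 * C2 * Real.exp K) * (lam ^ 2 * ℓ * Λ)) := by
          rw [Real.exp_neg]
          have := (Real.exp_pos K).ne'
          field_simp
      _ ≤ Real.exp (-K) * (D * (lam ^ 2 * ℓ * Λ)) := by gcongr
      _ = Real.exp (-K) * η := by rw [hη]; ring
  obtain ⟨M, hM⟩ : ∃ M : ℕ, M = ⌈(4 * (d:ℝ) + 3) / η⌉₊ := ⟨_, rfl⟩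
  obtain ⟨Bad, b1, b2, b3⟩ := grid (d := d) (L := L) (G := G) (q := Real.exp (-K)) hη0 hlam
    (by positivity : (0:ℝ) ≤ 2 * B) (fun n : ℤ => True)
    (fun n _ => by rw [hG]; exact diag1 L η hLη hη2 _) μ hμ2 hm p hp1 (Real.exp_pos _).le hG0
    hqq M
  refine ⟨Bad, b1, b2.trans ?_, ?_⟩
  · have e2 : (2 * (M:ℝ) + 1) ≤ Real.exp (2 * Λ) := by
      have e3 : (M:ℝ) ≤ (4 * d + 3) / η + 1 := by
        rw [hM]
        exact (Nat.ceil_lt_add_one (by positivity)).le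
      have e4 : (4 * (d:ℝ) + 3) / η ≤ (4 * d + 3) * L := by
        rw [div_eq_mul_inv]
        exact mul_le_mul_of_nonneg_left (hηi.trans hL1) (by positivity)
      have e5 : Real.exp (2 * Λ) = (L:ℝ) * L := by
        rw [two_mul, Real.exp_add, hexpL]
      have e6 : (8 * (d:ℝ) + 9) * L ≤ L * L := mul_le_mul_of_nonneg_right hL8 hL0.le
      have hd0 : (0:ℝ) ≤ d := Nat.cast_nonneg d
      rw [e5]
      linarith
    have e3 : (L:ℝ) ^ d * Real.exp (-K) ^ p ≤ Real.exp (-((3 + A) * Λ)) := by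
      rw [← hexpL, ← Real.exp_nat_mul, ← Real.exp_nat_mul, ← Real.exp_add]
      apply Real.exp_le_exp.2
      have h1 : Λ * K ≤ p * K := mul_le_mul_of_nonneg_right hpX hK0.le
      have h2 : Λ * K = d * Λ + (3 + A) * Λ := by rw [hK]; ring
      linarith
    calc (2 * (M:ℝ) + 1) * ((L:ℝ) ^ d * Real.exp (-K) ^ p)
        ≤ Real.exp (2 * Λ) * Real.exp (-((3 + A) * Λ)) := by gcongr
      _ = Real.exp (-((1 + A) * Λ)) := by rw [← Real.exp_add]; congr 1; ring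
      _ ≤ Real.exp (Λ * (-A)) := by
          apply Real.exp_le_exp.2
          linarith
      _ = (L:ℝ) ^ (-A) := by rw [Real.rpow_def_of_pos hL0, hΛ]
  · intro V hV E κ u hEl hκ hκ1 hE y r hr1 hr2
    rw [hm] at hE
    have hr0 : 0 ≤ r := by linarith
    rcases phi_cases hκ hr1 hη0 with hP | ⟨κ', hκ0', hκκ, hκ2, hP⟩
    · exact hT V E u y r _ hr2 (htriv _ (Or.inl hP))
    by_cases hr3 : r ≤ 1 / η
    swap
    · replace hr3 := not_le.1 hr3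
      refine hT V E u y r _ hr2 (htriv _ (Or.inl (le_trans ?_ (phi_ge hκ1 hr1))))
      have e1 : 1 / (2 * η) = (1 / η) / 2 := by field_simp
      rw [e1]
      linarith
    obtain ⟨n, hn1, hn2⟩ := grid_energy2 hη0 hη2 hlam hmB k3 hEl
    have hX3 := b3 V hV n (by rw [hM]; exact hn1) trivial
    have hgood : ∀ j : ℕ, j ≤ d → κ' ≤ |(n:ℝ) * η - 4 * j| := by
      intro j hj
      rcases hκ2 with h | h
      · rw [h]; exact abs_nonneg _
      · have e1 := hE j hj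
        have e2 : |E - lam * m - 4 * j| ≤ |(n:ℝ) * η - 4 * j| + |E - ((n:ℝ) * η + lam * m)| := by
          have e3 : E - lam * m - 4 * (j:ℝ) =
              ((n:ℝ) * η - 4 * j) + (E - ((n:ℝ) * η + lam * m)) := by ring
          rw [e3]
          exact abs_add_le _ _
        linarith
    have hφ0 : 0 < r ^ 2 / (1 + r * Real.sqrt κ) := phi_pos hr1
    have hφ0' : 0 < r ^ 2 / (1 + r * Real.sqrt κ') := phi_pos hr1
    have hmain := local3 (E := (n:ℝ) * η) (E' := E) (lam := lam) (m := m)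
      (Θ := C1 * (r ^ 2 / (1 + r * Real.sqrt κ')) * Real.log (1 / η))
      (R := lam ^ (-(2:ℝ))) hη0 V hX3 (by positivity) y r
      (fun g => slab1 L η hLη hη2 ((n:ℝ) * η) κ' hκ0' (hκκ.trans hκ1) hgood g y r hr1)
      (hn2.trans (by linarith))
      (by
        have e1 : 2 / η ≤ lam ^ (-(2:ℝ)) / 4 := by
          rw [div_le_iff₀ hη0, hm2']
          calc (2:ℝ) = (lam ^ 2)⁻¹ / 4 * (8 * lam ^ 2) := by field_simp; norm_num
            _ ≤ (lam ^ 2)⁻¹ / 4 * η := by gcongr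
        linarith) u hr3
    refine hmain.trans ?_
    have hnn : 0 ≤ ∑ x ∈ cub y (lam ^ (-(2:ℝ))), ‖u x‖ ^ 2 :=
      Finset.sum_nonneg fun _ _ => by positivity
    have hnn2 : 0 ≤ ∑ x ∈ cub y (lam ^ (-(2:ℝ))), ‖Hz ((E:ℝ):ℂ) lam V u x‖ ^ 2 :=
      Finset.sum_nonneg fun _ _ => by positivity
    generalize ∑ x ∈ cub y (lam ^ (-(2:ℝ))), ‖u x‖ ^ 2 = D' at hnn ⊢
    generalize ∑ x ∈ cub y (lam ^ (-(2:ℝ))), ‖Hz ((E:ℝ):ℂ) lam V u x‖ ^ 2 = K' at hnn2 ⊢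
    generalize r ^ 2 / (1 + r * Real.sqrt κ) = P at hφ0 hP ⊢
    generalize r ^ 2 / (1 + r * Real.sqrt κ') = P' at hφ0' hP ⊢
    have hη44 : η⁻¹ ≤ η * lam ^ (-(4:ℝ)) := by
      have e1 : lam ^ (-(4:ℝ)) = lam ^ (-(2:ℝ)) * lam ^ (-(2:ℝ)) := by
        rw [← Real.rpow_add hlam]; norm_num
      have e2 : η⁻¹ = η * (η⁻¹ * η⁻¹) := by field_simp
      rw [e1, e2]
      have e3 : 0 < η⁻¹ := inv_pos.2 hη0
      gcongr
    have h4 : 0 < lam ^ (-(4:ℝ)) := Real.rpow_pos_of_pos hlam _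
    have h5 : 3 * η * D' + 2 * η⁻¹ * K' ≤ 3 * η * (D' + lam ^ (-(4:ℝ)) * K') := by
      have e3 : η⁻¹ * K' ≤ (η * lam ^ (-(4:ℝ))) * K' := mul_le_mul_of_nonneg_right hη44 hnn2
      have e5 : 0 ≤ η * (lam ^ (-(4:ℝ)) * K') := by positivity
      linarith
    have hW : 0 ≤ D' + lam ^ (-(4:ℝ)) * K' := by positivity
    generalize D' + lam ^ (-(4:ℝ)) * K' = W at h5 hW ⊢
    calc C1 * P' * Real.log (1 / η) * (64 * (d:ℝ) ^ 2 + 16) *
        (3 * η * D' + 2 * η⁻¹ * K')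
        ≤ C1 * P' * Real.log (1 / η) * (64 * (d:ℝ) ^ 2 + 16) * (3 * η * W) :=
          mul_le_mul_of_nonneg_left h5 (by positivity)
      _ ≤ C1 * (2 * P) * (2 * ℓ) * (64 * (d:ℝ) ^ 2 + 16) * (3 * η * W) := by gcongr
      _ = (12 * C1 * (64 * d ^ 2 + 16) * D) * (lam ^ 2 * ℓ ^ 2 * Λ * P * W) := by
          rw [hη]; ring
      _ ≤ C * (lam ^ 2 * ℓ ^ 2 * Λ * P * W) := by gcongr
      _ = _ := by ring

/-- Every solution on the lattice is spread, at all energies. -/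
theorem everyZ3 (d : ℕ) (hall : S_ALL1 d) (A : ℝ) (hA : 0 < A) (b : ℝ) :
    ∃ C lam0 : ℝ, 0 < C ∧ 0 < lam0 ∧
      ∀ (μ : Measure ℝ) [IsProbabilityMeasure μ], (∀ᵐ t ∂μ, |t| ≤ b) →
      ∀ lam : ℝ, 0 < lam → lam < lam0 → ∀ R : ℝ, lam ^ (-(2:ℝ)) ≤ R →
        ∃ Bad : Set ((Fin d → ℤ) → ℝ), MeasurableSet Bad ∧
          (Measure.infinitePi fun _ : Fin d → ℤ => μ).real Bad ≤ R ^ (-A) ∧
          ∀ V, V ∉ Bad → ∀ (E κ : ℝ) (u : (Fin d → ℤ) → ℂ), |E| ≤ 4 * d + 1 → 0 ≤ κ → κ ≤ 1 →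
            (∀ j : ℕ, j ≤ d → κ ≤ |E - lam * (∫ t, t ∂μ) - 4 * j|) →
            ∀ y : Fin d → ℤ, (∀ i, ((|y i| : ℤ) : ℝ) ≤ R) →
              (∀ x ∈ cubZ y (lam ^ (-(2:ℝ))), HzZ ((E:ℝ):ℂ) lam V u x = 0) →
              ∀ r : ℝ, 1 ≤ r → r ≤ lam ^ (-(2:ℝ)) →
                ∑ x ∈ cubZ y r, ‖u x‖ ^ 2 ≤
                  C * lam ^ 2 * Real.log (1 / lam) ^ 2 * Real.log R *
                    (r ^ 2 / (1 + r * Real.sqrt κ)) *
                    ∑ x ∈ cubZ y (lam ^ (-(2:ℝ))), ‖u x‖ ^ 2 := by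
  obtain ⟨C, l0, hC, hl0, h⟩ := every3 d hall A hA b
  refine ⟨2 * C, min l0 (1 / 3), by positivity, lt_min hl0 (by norm_num), ?_⟩
  intro μ _ hμ lam hlam hlam1 R hR
  rw [lt_min_iff] at hlam1
  have hm2 : 0 < lam ^ (-(2:ℝ)) := Real.rpow_pos_of_pos hlam _
  have h9 : 9 ≤ lam ^ (-(2:ℝ)) := by
    have hm2' : lam ^ (-(2:ℝ)) = (lam ^ 2)⁻¹ := by
      rw [Real.rpow_neg hlam.le]
      congr 1
      exact_mod_cast Real.rpow_natCast lam 2
    rw [hm2', le_inv_comm₀ (by norm_num) (by positivity)]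
    nlinarith [hlam1.2]
  have hR9 : 9 ≤ R := h9.trans hR
  obtain ⟨L, hL⟩ : ∃ L : ℕ, L = ⌈7 * R⌉₊ := ⟨_, rfl⟩
  have hL1 : 7 * R ≤ L := by rw [hL]; exact Nat.le_ceil _
  have hL2 : (L:ℝ) ≤ 8 * R := by
    have := Nat.ceil_lt_add_one (show (0:ℝ) ≤ 7 * R by linarith)
    rw [← hL] at this
    linarith
  have hL0 : (0:ℝ) < L := by linarith
  have hNZ : NeZero L := ⟨by
    intro h0
    rw [h0, Nat.cast_zero] at hL1
    linarith⟩
  have hlogL : Real.log L ≤ 2 * Real.log R := by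
    have h1 : (L:ℝ) ≤ R ^ 2 := by nlinarith
    have h2 := Real.log_le_log hL0 h1
    rwa [Real.log_pow, Nat.cast_ofNat] at h2
  have hlogR : 0 ≤ Real.log R := Real.log_nonneg (by linarith)
  obtain ⟨Bad, b1, b2, b3⟩ := h μ hμ lam hlam hlam1.1 L (by linarith)
  obtain ⟨c1, c2⟩ := bad_pull (lift : T d L → Fin d → ℤ) lift_inj μ b1
  refine ⟨_, c1, c2.le.trans (b2.trans ?_), ?_⟩
  · exact Real.rpow_le_rpow_of_nonpos (by linarith) (by linarith) (by linarith)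
  intro V hV E κ u hE hκ hκ1 hE4 y hy hu r hr1 hr2
  have hR0 : 0 ≤ R := by linarith
  have h2 : 2 * (R + lam ^ (-(2:ℝ)) + 1) < (L:ℝ) := by linarith
  have h3 := b3 (fun q => V (lift q)) hV E κ (fun q => u (lift q)) hE hκ hκ1 hE4 (proj L y) r
    hr1 hr2
  rw [sum_cub hR0 hy (by linarith) (fun x => ‖u x‖ ^ 2),
    sum_cub hR0 hy (by linarith) (fun x => ‖u x‖ ^ 2)] at h3
  have h4 : ∑ x ∈ cub (proj L y) (lam ^ (-(2:ℝ))),
      ‖Hz ((E:ℝ):ℂ) lam (fun q => V (lift q)) (fun q => u (lift q)) x‖ ^ 2 = 0 := by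
    refine Finset.sum_eq_zero fun q hq => ?_
    rw [Hz_lift hy h2 hq, hu _ (lift_mem hy (by linarith) hq)]
    simp
  rw [h4, mul_zero, add_zero] at h3
  refine h3.trans ?_
  have hnn : 0 ≤ ∑ x ∈ cubZ y (lam ^ (-(2:ℝ))), ‖u x‖ ^ 2 :=
    Finset.sum_nonneg fun _ _ => by positivity
  have hr0 : 0 ≤ r := by linarith
  have hφ := phi_pos (κ := κ) hr1
  calc C * lam ^ 2 * Real.log (1 / lam) ^ 2 * Real.log L * (r ^ 2 / (1 + r * Real.sqrt κ)) *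
      ∑ x ∈ cubZ y (lam ^ (-(2:ℝ))), ‖u x‖ ^ 2
      ≤ C * lam ^ 2 * Real.log (1 / lam) ^ 2 * (2 * Real.log R) *
        (r ^ 2 / (1 + r * Real.sqrt κ)) *
        ∑ x ∈ cubZ y (lam ^ (-(2:ℝ))), ‖u x‖ ^ 2 := by gcongr
    _ = _ := by ring

end Pool.Agent.Zk60.AE
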