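import Pool.Agent.Zk60.AE.Rnd
import Pool.Agent.Zk9.OneD

/-!
Every eigenfunction at weak disorder is spread beyond `λ^(-2+)`.
-/

set_option autoImplicit false
set_option linter.unusedSectionVars false

open scoped BigOperators
open MeasureTheory Filter Topology

namespace Pool.Agent.Zk60.AE

open Pool.Agent.W788.MFP.Four (T e NN adj adj_neg e_comm e_add_left e_add e_zero e_neg e_neg_left
  e_normSq sum_e NN_pos card_T e_single)
open Pool.Agent.Zk11.QD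

theorem ev1 {a c : ℝ} (ha : 0 < a) (hc : 0 < c) : ∀ᶠ x : ℝ in 𝓝[>] 0, x ^ a < c := by
  have h : Tendsto (fun x : ℝ => x ^ a) (𝓝[>] 0) (𝓝 0) := by
    have h1 := (Real.continuousAt_rpow_const 0 a (Or.inr ha.le)).tendsto
    rw [Real.zero_rpow ha.ne'] at h1
    exact h1.mono_left nhdsWithin_le_nhds
  exact h.eventually_lt_const hc

theorem ev2 {a c : ℝ} (ha : 0 < a) (hc : 0 < c) :
    ∀ᶠ x : ℝ in 𝓝[>] 0, x ^ a * Real.log (1 / x) < c := by
  have h : Tendsto (fun x : ℝ => x ^ a * Real.log (1 / x)) (𝓝[>] 0) (𝓝 0) := by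
    have h1 := (tendsto_log_mul_rpow_nhdsGT_zero ha).neg
    rw [neg_zero] at h1
    refine h1.congr fun x => ?_
    rw [one_div, Real.log_inv]
    ring
  exact h.eventually_lt_const hc

theorem ev3 {s : ℝ} (hs : 0 < s) (A B : ℝ) :
    ∀ᶠ x : ℝ in 𝓝[>] 0, A * x ^ (-(2:ℝ)) + B ≤ Real.exp (x ^ (-(s / 4))) := by
  have hX : Tendsto (fun x : ℝ => x ^ (-(s / 4))) (𝓝[>] 0) atTop :=
    tendsto_rpow_neg_nhdsGT_zero (by linarith)
  have h1 := tendsto_rpow_mul_exp_neg_mul_atTop_nhds_zero (8 / s) 1 one_pos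
  have h2 : Tendsto (fun y : ℝ => A * (y ^ (8 / s) * Real.exp (-1 * y)) + B * Real.exp (-y)) atTop
      (𝓝 0) := by
    have h3 := (h1.const_mul A).add ((Real.tendsto_exp_neg_atTop_nhds_zero).const_mul B)
    simpa using h3
  have h4 := h2.comp hX
  have h5 := h4.eventually_lt_const one_pos
  filter_upwards [h5, self_mem_nhdsWithin] with x h6 hx
  have hx0 : 0 < x := hx
  simp only [Function.comp] at h6
  have e1 : (x ^ (-(s / 4))) ^ (8 / s) = x ^ (-(2:ℝ)) := by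
    rw [← Real.rpow_mul hx0.le]
    congr 1
    field_simp
    norm_num
  rw [e1] at h6
  have e2 : Real.exp (-1 * x ^ (-(s / 4))) = Real.exp (-x ^ (-(s / 4))) := by
    congr 1; ring
  rw [e2] at h6
  have h7 : 0 < Real.exp (x ^ (-(s / 4))) := Real.exp_pos _
  have h8 : Real.exp (-x ^ (-(s / 4))) * Real.exp (x ^ (-(s / 4))) = 1 := by
    rw [← Real.exp_add]; simp
  nlinarith

variable {d L : ℕ} [NeZero L]

/-- Outside the spectrum there are no eigenfunctions. -/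
theorem zero_of_large {lam E : ℝ} {V : T d L → ℝ} {u : T d L → ℂ}
    (hV : ∀ x, |lam * V x| ≤ 1) (hu : ∀ x, Hz ((E : ℝ) : ℂ) lam V u x = 0)
    (hE : 4 * d + 1 < |E|) : ∀ x, u x = 0 := by
  obtain ⟨x0, -, hx0⟩ := Finset.exists_max_image (Finset.univ : Finset (T d L))
    (fun x => ‖u x‖) ⟨0, Finset.mem_univ _⟩
  have h1 := hu x0
  unfold Hz at h1
  have h2 : ((2 * (d:ℂ) + (lam : ℂ) * V x0 - E) * u x0) =
      ∑ i : Fin d, (u (x0 + Pi.single i 1) + u (x0 - Pi.single i 1)) := by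
    linear_combination h1
  have h3 : ‖(2 * (d:ℂ) + (lam : ℂ) * V x0 - E) * u x0‖ ≤ 2 * d * ‖u x0‖ := by
    rw [h2]
    refine (norm_sum_le _ _).trans ?_
    calc ∑ i : Fin d, ‖u (x0 + Pi.single i 1) + u (x0 - Pi.single i 1)‖
        ≤ ∑ _i : Fin d, 2 * ‖u x0‖ := by
          refine Finset.sum_le_sum fun i _ => ?_
          refine (norm_add_le _ _).trans ?_
          have a1 := hx0 (x0 + Pi.single i 1) (Finset.mem_univ _)
          have a2 := hx0 (x0 - Pi.single i 1) (Finset.mem_univ _)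
          linarith
      _ = 2 * d * ‖u x0‖ := by
          rw [Finset.sum_const, Finset.card_univ, Fintype.card_fin, nsmul_eq_mul]
          ring
  have h4 : |E| - 2 * d - 1 ≤ ‖(2 * (d:ℂ) + (lam : ℂ) * V x0 - E)‖ := by
    have e1 : (2 * (d:ℂ) + (lam : ℂ) * V x0 - E) = ((2 * d + lam * V x0 - E : ℝ) : ℂ) := by
      push_cast; ring
    rw [e1, Complex.norm_real, Real.norm_eq_abs]
    have e2 := abs_sub_abs_le_abs_sub E (2 * d + lam * V x0)
    have e3 : |2 * (d:ℝ) + lam * V x0| ≤ 2 * d + 1 := by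
      refine (abs_add_le _ _).trans ?_
      have := hV x0
      rw [abs_of_nonneg (by positivity : (0:ℝ) ≤ 2 * d)]
      linarith
    rw [abs_sub_comm] at e2
    linarith
  rw [norm_mul] at h3
  have h5 : ‖u x0‖ = 0 := by
    by_contra hne
    have h6 : 0 < ‖u x0‖ := lt_of_le_of_ne (norm_nonneg _) (Ne.symm hne)
    nlinarith
  intro x
  have h6 := hx0 x (Finset.mem_univ _)
  rw [h5] at h6
  exact norm_le_zero_iff.1 h6

theorem Hz_shift (z z' : ℂ) (lam : ℝ) (V : T d L → ℝ) (u : T d L → ℂ) (x : T d L) :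
    Hz z' lam V u x = Hz z lam V u x + (z - z') * u x := by
  unfold Hz
  ring

/-- The local estimate for all functions. -/
theorem every0 (d : ℕ) (hd : 1 ≤ d) (κ : ℝ) (hκ : 0 < κ) (s : ℝ) (hs : 0 < s) (hs1 : s ≤ 1)
    (b : ℝ) :
    ∃ lam0 : ℝ, 0 < lam0 ∧ ∀ (μ : Measure ℝ) [IsProbabilityMeasure μ], (∀ᵐ t ∂μ, |t| ≤ b) →
      ∀ lam : ℝ, 0 < lam → lam < lam0 → ∀ (L : ℕ) [NeZero L], lam ^ (-(2:ℝ)) ≤ (L:ℝ) →
        (L:ℝ) ≤ Real.exp (lam ^ (-(s / 4))) →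
        ∃ Bad : Set (T d L → ℝ), MeasurableSet Bad ∧
          (Measure.pi fun _ : T d L => μ).real Bad ≤ Real.exp (-(lam ^ (-(s / 4)))) ∧
          ∀ V, V ∉ Bad → ∀ (E : ℝ) (u : T d L → ℂ), |E| ≤ 4 * d + 1 →
            (∀ j : ℕ, j ≤ d → κ ≤ |E - 4 * j|) →
            ∀ (y : T d L) (r : ℝ), 1 ≤ r → r ≤ lam ^ (-(2:ℝ)) →
              ∑ x ∈ cub y r, ‖u x‖ ^ 2 ≤
                lam ^ (2 - s) * r * (∑ x ∈ cub y (lam ^ (-(2:ℝ))), ‖u x‖ ^ 2 +
                  lam ^ (-(4:ℝ)) * ∑ x ∈ cub y (lam ^ (-(2:ℝ))),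
                    ‖Hz ((E:ℝ):ℂ) lam V u x‖ ^ 2) := by
  obtain ⟨C1, hC1, slab1⟩ := slab one_d d hd (κ / 2) (by linarith)
  obtain ⟨C2, hC2, diag1⟩ := diag0 one_d d hd (κ / 2) (by linarith)
  set B : ℝ := |b| + 1 with hB
  have hB0 : 0 < B := by positivity
  have hbB : b ≤ B := by have := le_abs_self b; linarith
  have H : ∀ᶠ x : ℝ in 𝓝[>] 0, x < 1 ∧ x ^ (2 - s / 2) < 1 / 2 ∧ x * B < κ / 4 ∧
      x ^ (2 - s / 2) < κ / 4 ∧ x * B < 1 ∧
      x ^ (s / 4) * Real.log (1 / x) < Real.exp (-(d + 2)) / (256 * B ^ 2 * C2) ∧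
      (8 * d + 6) * x ^ (-(2:ℝ)) + 3 ≤ Real.exp (x ^ (-(s / 4))) ∧
      x ^ (s / 2) < 1 / 4 ∧ x ^ (2:ℝ) < 1 / 4 ∧
      x ^ (s / 2) * Real.log (1 / x) < 1 / (18 * C1 * (64 * d ^ 2 + 16)) := by
    have f1 := ev1 (a := 1) one_pos one_pos
    have f2 := ev1 (a := 2 - s / 2) (by linarith) (show (0:ℝ) < 1 / 2 by norm_num)
    have f3 := ev1 (a := 1) one_pos (show (0:ℝ) < κ / 4 / B by positivity)
    have f4 := ev1 (a := 2 - s / 2) (by linarith) (show (0:ℝ) < κ / 4 by positivity)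
    have f5 := ev1 (a := 1) one_pos (show (0:ℝ) < 1 / B by positivity)
    have f6 := ev2 (a := s / 4) (by linarith)
      (show (0:ℝ) < Real.exp (-(d + 2)) / (256 * B ^ 2 * C2) by positivity)
    have f7 := ev3 hs (8 * d + 6) 3
    have f8 := ev1 (a := s / 2) (by linarith) (show (0:ℝ) < 1 / 4 by norm_num)
    have f9 := ev1 (a := (2:ℝ)) (by norm_num) (show (0:ℝ) < 1 / 4 by norm_num)
    have f10 := ev2 (a := s / 2) (by linarith)
      (show (0:ℝ) < 1 / (18 * C1 * (64 * d ^ 2 + 16)) by positivity)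
    filter_upwards [f1, f2, f3, f4, f5, f6, f7, f8, f9, f10] with x g1 g2 g3 g4 g5 g6 g7 g8 g9 g10
    rw [Real.rpow_one] at g1 g3 g5
    refine ⟨g1, g2, ?_, g4, ?_, g6, g7, g8, g9, g10⟩
    · rwa [lt_div_iff₀ hB0] at g3
    · rwa [lt_div_iff₀ hB0] at g5
  obtain ⟨lam0, hlam0, hH⟩ := mem_nhdsGT_iff_exists_Ioo_subset.1 H
  have hlam0' : (0:ℝ) < lam0 := hlam0
  refine ⟨lam0, hlam0', ?_⟩
  intro μ _ hμ lam hlam hlam1 L _ hL1 hL2
  obtain ⟨k1, k2, k3, k4, k5, k6, k7, k8, k9, k10⟩ := hH ⟨hlam, hlam1⟩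
  set η : ℝ := lam ^ (2 - s / 2) with hη
  have hη0 : 0 < η := Real.rpow_pos_of_pos hlam _
  set X : ℝ := lam ^ (-(s / 4)) with hX
  have hX1 : 1 ≤ X := Real.one_le_rpow_of_pos_of_le_one_of_nonpos hlam k1.le (by linarith)
  set ℓ : ℝ := Real.log (1 / lam) with hℓ
  have hℓ0 : 0 < ℓ := Real.log_pos (by rw [lt_div_iff₀ hlam]; linarith)
  have hlogη : Real.log (1 / η) ≤ 2 * ℓ := by
    have h1 : Real.log (1 / η) = (2 - s / 2) * ℓ := by
      rw [hη, hℓ, one_div, one_div, Real.log_inv, Real.log_inv, Real.log_rpow hlam]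
      ring
    rw [h1]
    nlinarith
  have hlogη0 : 0 ≤ Real.log (1 / η) := Real.log_nonneg (by rw [le_div_iff₀ hη0]; linarith)
  have hl2 : lam ^ (2:ℝ) ≤ η := Real.rpow_le_rpow_of_exponent_ge hlam k1.le (by linarith)
  have hm2 : 0 < lam ^ (-(2:ℝ)) := Real.rpow_pos_of_pos hlam _
  have hm2' : (lam ^ (-(2:ℝ)))⁻¹ = lam ^ (2:ℝ) := by
    rw [← Real.rpow_neg hlam.le, neg_neg]
  have hL0 : (0:ℝ) < L := lt_of_lt_of_le hm2 hL1
  have hLη : 1 / (L:ℝ) ≤ η := by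
    rw [one_div]
    exact (inv_anti₀ hm2 hL1).trans (by rw [hm2']; exact hl2)
  have hηi : η⁻¹ ≤ lam ^ (-(2:ℝ)) := by
    have h1 := inv_anti₀ (Real.rpow_pos_of_pos hlam (2:ℝ)) hl2
    rwa [← Real.rpow_neg hlam.le 2] at h1
  -- the mean
  set m : ℝ := ∫ t, t ∂μ with hm
  have hμB : ∀ᵐ t ∂μ, |t| ≤ B := hμ.mono fun t ht => ht.trans hbB
  have hmB : |m| ≤ B := by
    have h1 := norm_integral_le_of_norm_le_const (μ := μ) (f := fun t : ℝ => t) (C := B)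
      (hμB.mono fun t ht => by simpa using ht)
    simpa using h1
  have hμ2 : ∀ᵐ t ∂μ, |t - m| ≤ 2 * B := by
    filter_upwards [hμB] with t ht
    have := abs_sub t m
    linarith
  set p : ℕ := ⌈X⌉₊ with hp
  have hpX : X ≤ p := Nat.le_ceil X
  have hpX2 : (p:ℝ) ≤ 2 * X := by
    have := Nat.ceil_lt_add_one (show (0:ℝ) ≤ X by linarith)
    rw [← hp] at this
    linarith
  have hp1 : 1 ≤ p := by
    have : (1:ℝ) ≤ p := hX1.trans hpX
    exact_mod_cast this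
  set G : ℝ := C2 * Real.log (1 / η) with hG
  have hG0 : 0 ≤ G := by positivity
  -- the bad event for one energy
  have hone : ∀ n : ℤ, ∃ Bad : Set (T d L → ℝ), MeasurableSet Bad ∧
      (Measure.pi fun _ : T d L => μ).real Bad ≤ Real.exp (-(2 * X)) ∧
      (∀ V, V ∉ Bad → (∀ j : ℕ, j ≤ d → κ / 2 ≤ |(n:ℝ) * η - 4 * j|) →
        ∀ z : T d L → ℂ, ∑ y, ‖(lam : ℂ) * ∑ x, Tk ((n:ℝ) * η) η (y - x) *
        (((V x - m : ℝ) : ℂ) * ∑ w, Tk ((n:ℝ) * η) η (x - w) * z w)‖ ^ 2 ≤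
          1 / 4 * ∑ y, ‖z y‖ ^ 2) := by
    intro n
    by_cases hn : ∀ j : ℕ, j ≤ d → κ / 2 ≤ |(n:ℝ) * η - 4 * j|
    · obtain ⟨Bad, q1, q2, q3⟩ := one_energy (d := d) (L := L) (E := (n:ℝ) * η) (G := G)
        hη0 hlam (by positivity : (0:ℝ) ≤ 2 * B) (diag1 L η hLη k2.le _ hn) μ hμ2 rfl p hp1
      refine ⟨Bad, q1, q2.trans ?_, fun V hV _ => q3 V hV⟩
      have e1 : 16 * (2 * B) ^ 2 * p * G * lam ^ 2 / η ≤ Real.exp (-(d + 2)) := by
        have e2 : lam ^ 2 / η = lam ^ (s / 2) := by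
          rw [hη, ← Real.rpow_natCast lam 2, ← Real.rpow_sub hlam]
          congr 1
          push_cast
          ring
        have e3 : X * lam ^ (s / 2) = lam ^ (s / 4) := by
          rw [hX, ← Real.rpow_add hlam]
          congr 1
          ring
        calc 16 * (2 * B) ^ 2 * p * G * lam ^ 2 / η
            = 64 * B ^ 2 * (p * G) * (lam ^ 2 / η) := by ring
          _ = 64 * B ^ 2 * (p * G) * lam ^ (s / 2) := by rw [e2]
          _ ≤ 64 * B ^ 2 * ((2 * X) * (C2 * (2 * ℓ))) * lam ^ (s / 2) := by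
              have h0 : 0 < lam ^ (s / 2) := Real.rpow_pos_of_pos hlam _
              have hG2 : G ≤ C2 * (2 * ℓ) := mul_le_mul_of_nonneg_left hlogη hC2.le
              gcongr
          _ = 256 * B ^ 2 * C2 * ((X * lam ^ (s / 2)) * ℓ) := by ring
          _ = 256 * B ^ 2 * C2 * (lam ^ (s / 4) * ℓ) := by rw [e3]
          _ ≤ 256 * B ^ 2 * C2 * (Real.exp (-(d + 2)) / (256 * B ^ 2 * C2)) := by
              gcongr
          _ = Real.exp (-(d + 2)) := by field_simp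
      have e0 : 0 ≤ 16 * (2 * B) ^ 2 * p * G * lam ^ 2 / η := by positivity
      calc (L:ℝ) ^ d * (16 * (2 * B) ^ 2 * p * G * lam ^ 2 / η) ^ p
          ≤ (Real.exp X) ^ d * (Real.exp (-(d + 2))) ^ p := by gcongr
        _ = Real.exp (d * X) * Real.exp (p * (-(d + 2))) := by
            rw [← Real.exp_nat_mul, ← Real.exp_nat_mul]
        _ = Real.exp (d * X - p * (d + 2)) := by
            rw [← Real.exp_add]; congr 1; ring
        _ ≤ Real.exp (-(2 * X)) := by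
            apply Real.exp_le_exp.2
            have : X * (d + 2) ≤ p * (d + 2) := mul_le_mul_of_nonneg_right hpX (by positivity)
            linarith
    · exact ⟨∅, MeasurableSet.empty, by simp [Real.exp_nonneg], fun V _ h => absurd h hn⟩
  choose Bad hB1 hB2 hB3 using hone
  set M : ℕ := ⌈(4 * d + 3) / η⌉₊ with hM
  refine ⟨⋃ n ∈ Finset.Icc (-(M:ℤ)) M, Bad n, ?_, ?_, ?_⟩
  · exact Finset.measurableSet_biUnion _ fun n _ => hB1 n
  · refine (measureReal_biUnion_finset_le _ _).trans ?_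
    refine (Finset.sum_le_sum fun n _ => hB2 n).trans ?_
    rw [Finset.sum_const, nsmul_eq_mul, Int.card_Icc]
    have e1 : (((M:ℤ) + 1 - -(M:ℤ)).toNat : ℝ) = 2 * M + 1 := by
      have : ((M:ℤ) + 1 - -(M:ℤ)).toNat = 2 * M + 1 := by omega
      rw [this]
      push_cast
      ring
    rw [e1]
    have e2 : (2 * (M:ℝ) + 1) ≤ Real.exp X := by
      refine le_trans ?_ k7
      have e3 : (M:ℝ) ≤ (4 * d + 3) / η + 1 := (Nat.ceil_lt_add_one (by positivity)).le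
      have e4 : (4 * (d:ℝ) + 3) / η ≤ (4 * d + 3) * lam ^ (-(2:ℝ)) := by
        rw [div_eq_mul_inv]
        exact mul_le_mul_of_nonneg_left hηi (by positivity)
      linarith
    calc (2 * (M:ℝ) + 1) * Real.exp (-(2 * X)) ≤ Real.exp X * Real.exp (-(2 * X)) := by
          gcongr
      _ = Real.exp (-X) := by rw [← Real.exp_add]; congr 1; ring
  · intro V hV E u hEl hE y r hr1 hr2
    have hnn : 0 ≤ ∑ x ∈ cub y (lam ^ (-(2:ℝ))), ‖u x‖ ^ 2 :=
      Finset.sum_nonneg fun _ _ => by positivity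
    have hnn2 : 0 ≤ lam ^ (-(4:ℝ)) * ∑ x ∈ cub y (lam ^ (-(2:ℝ))),
        ‖Hz ((E:ℝ):ℂ) lam V u x‖ ^ 2 := mul_nonneg (Real.rpow_nonneg hlam.le _)
      (Finset.sum_nonneg fun _ _ => by positivity)
    have h2s : 0 < lam ^ (2 - s) := Real.rpow_pos_of_pos hlam _
    by_cases hr3 : r ≤ 1 / η
    swap
    · push_neg at hr3
      have h1 : ∑ x ∈ cub y r, ‖u x‖ ^ 2 ≤ ∑ x ∈ cub y (lam ^ (-(2:ℝ))), ‖u x‖ ^ 2 :=
        Finset.sum_le_sum_of_subset_of_nonneg (cub_mono hr2) fun _ _ _ => by positivity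
      have h2 : 1 ≤ lam ^ (2 - s) * r := by
        have h3 : lam ^ (2 - s) * (1 / η) ≤ lam ^ (2 - s) * r :=
          mul_le_mul_of_nonneg_left hr3.le h2s.le
        have h4 : 1 ≤ lam ^ (2 - s) * (1 / η) := by
          rw [hη, one_div, ← Real.rpow_neg hlam.le, ← Real.rpow_add hlam]
          exact Real.one_le_rpow_of_pos_of_le_one_of_nonpos hlam k1.le (by linarith)
        linarith
      nlinarith
    -- the grid energy
    set n : ℤ := round ((E - lam * m) / η) with hn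
    have hn1 : |(E - lam * m) / η - n| ≤ 1 / 2 := abs_sub_round _
    have hn2 : |E - lam * m - n * η| ≤ η / 2 := by
      have e1 : E - lam * m - n * η = ((E - lam * m) / η - n) * η := by
        field_simp
      rw [e1, abs_mul, abs_of_pos hη0]
      nlinarith
    have hlm : |lam * m| ≤ lam * B := by
      rw [abs_mul, abs_of_pos hlam]
      exact mul_le_mul_of_nonneg_left hmB hlam.le
    have hn3 : |(n:ℝ) * η| ≤ 4 * d + 3 := by
      have e1 : |(n:ℝ) * η| ≤ |E| + |lam * m| + |E - lam * m - n * η| := by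
        have e2 : (n:ℝ) * η = E - lam * m - (E - lam * m - n * η) := by ring
        calc |(n:ℝ) * η| = |E - lam * m - (E - lam * m - n * η)| := by rw [← e2]
          _ ≤ |E - lam * m| + |E - lam * m - n * η| := abs_sub _ _
          _ ≤ _ := by
              have := abs_sub E (lam * m)
              linarith
      linarith
    have hnM : n ∈ Finset.Icc (-(M:ℤ)) M := by
      have e1 : |(n:ℝ)| ≤ M := by
        refine le_trans ?_ (Nat.le_ceil _)
        rw [le_div_iff₀ hη0]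
        rwa [abs_mul, abs_of_pos hη0] at hn3
      have e2 : |n| ≤ (M:ℤ) := by exact_mod_cast e1
      rw [Finset.mem_Icc]
      exact abs_le.1 e2
    have hgood : ∀ j : ℕ, j ≤ d → κ / 2 ≤ |(n:ℝ) * η - 4 * j| := by
      intro j hj
      have e1 := hE j hj
      have e2 : |E - 4 * j| ≤ |(n:ℝ) * η - 4 * j| + |E - lam * m - n * η| + |lam * m| := by
        have e3 : E - 4 * (j:ℝ) = ((n:ℝ) * η - 4 * j) + (E - lam * m - n * η) + lam * m := by
          ring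
        rw [e3]
        exact abs_add_three _ _ _
      linarith
    have hVn : V ∉ Bad n := by
      intro h
      exact hV (Set.mem_iUnion₂.2 ⟨n, hnM, h⟩)
    have hX3 := hB3 n V hVn hgood
    have hmain := local_est (E := (n:ℝ) * η) (lam := lam) (m := m) (Γ := C1 * Real.log (1 / η))
      hη0 (by linarith) V hX3 (by positivity)
      (by
        intro g y' r' hr'
        have e1 := slab1 L η hLη k2.le ((n:ℝ) * η) hgood g y' r' hr'
        refine e1.trans (le_of_eq ?_)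
        ring) u y r (by linarith) hr3
    have hsub : cub y (2 / η + 2) ⊆ cub y (lam ^ (-(2:ℝ))) := by
      apply cub_mono
      have e1 : 2 / η = 2 * (lam ^ (-(2:ℝ)) * lam ^ (s / 2)) := by
        rw [← Real.rpow_add hlam, hη, div_eq_mul_inv, ← Real.rpow_neg hlam.le]
        congr 2
        ring
      have e2 : lam ^ (-(2:ℝ)) * lam ^ (2:ℝ) = 1 := by
        rw [← Real.rpow_add hlam]; simp
      have e3 := mul_lt_mul_of_pos_left k8 hm2
      have e4 := mul_lt_mul_of_pos_left k9 hm2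
      rw [e2] at e4
      rw [e1]
      linarith
    have hA : ∑ x ∈ cub y (2 / η + 2), ‖u x‖ ^ 2 ≤ ∑ x ∈ cub y (lam ^ (-(2:ℝ))), ‖u x‖ ^ 2 :=
      Finset.sum_le_sum_of_subset_of_nonneg hsub fun _ _ _ => by positivity
    have hBs : ∑ x ∈ cub y (2 / η + 2),
        ‖Hz (((n:ℝ) * η + lam * m : ℝ) : ℂ) lam V u x‖ ^ 2 ≤
        2 * ∑ x ∈ cub y (2 / η + 2), ‖Hz ((E:ℝ):ℂ) lam V u x‖ ^ 2 +
        2 * (η ^ 2 * ∑ x ∈ cub y (2 / η + 2), ‖u x‖ ^ 2) := by
      rw [Finset.mul_sum, Finset.mul_sum, Finset.mul_sum, ← Finset.sum_add_distrib]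
      refine Finset.sum_le_sum fun x _ => ?_
      rw [Hz_shift ((E:ℝ):ℂ)]
      have e1 : ((E:ℝ):ℂ) - (((n:ℝ) * η + lam * m : ℝ) : ℂ) =
          ((E - lam * m - n * η : ℝ) : ℂ) := by
        push_cast; ring
      rw [e1]
      have e2 : (E - lam * m - n * η) ^ 2 ≤ η ^ 2 := by
        rw [← sq_abs (E - lam * m - n * η)]
        have := abs_nonneg (E - lam * m - n * η)
        nlinarith
      have e3 : ‖((E - lam * m - n * η : ℝ) : ℂ) * u x‖ ^ 2 ≤ η ^ 2 * ‖u x‖ ^ 2 := by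
        rw [norm_mul, mul_pow, Complex.norm_real, Real.norm_eq_abs, sq_abs]
        exact mul_le_mul_of_nonneg_right e2 (by positivity)
      have e4 := norm_add_le (Hz ((E:ℝ):ℂ) lam V u x) (((E - lam * m - n * η : ℝ) : ℂ) * u x)
      have e5 := norm_nonneg (Hz ((E:ℝ):ℂ) lam V u x + ((E - lam * m - n * η : ℝ) : ℂ) * u x)
      nlinarith [sq_nonneg (‖Hz ((E:ℝ):ℂ) lam V u x‖ - ‖((E - lam * m - n * η : ℝ) : ℂ) * u x‖),
        norm_nonneg (Hz ((E:ℝ):ℂ) lam V u x), norm_nonneg (((E - lam * m - n * η : ℝ) : ℂ) * u x)]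
    have hHs : ∑ x ∈ cub y (2 / η + 2), ‖Hz ((E:ℝ):ℂ) lam V u x‖ ^ 2 ≤
        ∑ x ∈ cub y (lam ^ (-(2:ℝ))), ‖Hz ((E:ℝ):ℂ) lam V u x‖ ^ 2 :=
      Finset.sum_le_sum_of_subset_of_nonneg hsub fun _ _ _ => by positivity
    set A := ∑ x ∈ cub y (2 / η + 2), ‖u x‖ ^ 2 with hAd
    set D := ∑ x ∈ cub y (lam ^ (-(2:ℝ))), ‖u x‖ ^ 2 with hDd
    set F := ∑ x ∈ cub y (2 / η + 2), ‖Hz ((E:ℝ):ℂ) lam V u x‖ ^ 2 with hFd
    set K := ∑ x ∈ cub y (lam ^ (-(2:ℝ))), ‖Hz ((E:ℝ):ℂ) lam V u x‖ ^ 2 with hKd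
    have hA0 : 0 ≤ A := Finset.sum_nonneg fun _ _ => by positivity
    have hF0 : 0 ≤ F := Finset.sum_nonneg fun _ _ => by positivity
    have hη4 : η⁻¹ ≤ η * lam ^ (-(4:ℝ)) := by
      have e1 : lam ^ (-(4:ℝ)) = lam ^ (-(2:ℝ)) * lam ^ (-(2:ℝ)) := by
        rw [← Real.rpow_add hlam]; norm_num
      have e2 : η⁻¹ = η * (η⁻¹ * η⁻¹) := by field_simp
      rw [e1, e2]
      have e3 : 0 < η⁻¹ := inv_pos.2 hη0
      gcongr
    refine hmain.trans ?_
    have h5 : η * A + η⁻¹ * ∑ x ∈ cub y (2 / η + 2),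
        ‖Hz (((n:ℝ) * η + lam * m : ℝ) : ℂ) lam V u x‖ ^ 2 ≤
        3 * η * (D + lam ^ (-(4:ℝ)) * K) := by
      have e1 : η⁻¹ * ∑ x ∈ cub y (2 / η + 2),
        ‖Hz (((n:ℝ) * η + lam * m : ℝ) : ℂ) lam V u x‖ ^ 2 ≤ η⁻¹ * (2 * F + 2 * (η ^ 2 * A)) :=
        mul_le_mul_of_nonneg_left hBs (inv_nonneg.2 hη0.le)
      have e2 : η⁻¹ * (2 * F + 2 * (η ^ 2 * A)) = 2 * (η⁻¹ * F) + 2 * (η * A) := by field_simp
      rw [e2] at e1
      have e3 : η⁻¹ * F ≤ (η * lam ^ (-(4:ℝ))) * K := by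
        have : 0 ≤ η * lam ^ (-(4:ℝ)) := mul_nonneg hη0.le (Real.rpow_nonneg hlam.le _)
        exact mul_le_mul hη4 hHs hF0 this
      have e4 : η * A ≤ η * D := mul_le_mul_of_nonneg_left hA hη0.le
      have e5 : 0 ≤ η * (lam ^ (-(4:ℝ)) * K) := mul_nonneg hη0.le hnn2
      nlinarith
    have hDK : 0 ≤ D + lam ^ (-(4:ℝ)) * K := add_nonneg hnn hnn2
    set W := D + lam ^ (-(4:ℝ)) * K with hW
    calc C1 * Real.log (1 / η) * (2 * r + 1) * (64 * (d:ℝ) ^ 2 + 16) *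
        (η * A + η⁻¹ * ∑ x ∈ cub y (2 / η + 2),
          ‖Hz (((n:ℝ) * η + lam * m : ℝ) : ℂ) lam V u x‖ ^ 2)
        ≤ C1 * (2 * ℓ) * (3 * r) * (64 * (d:ℝ) ^ 2 + 16) * (3 * η * W) := by
          gcongr
          linarith
      _ = (18 * C1 * (64 * d ^ 2 + 16) * ℓ * η) * r * W := by ring
      _ ≤ lam ^ (2 - s) * r * W := by
          have e1 : 18 * C1 * (64 * (d:ℝ) ^ 2 + 16) * ℓ * η ≤ lam ^ (2 - s) := by
            have e2 : η = lam ^ (2 - s) * lam ^ (s / 2) := by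
              rw [hη, ← Real.rpow_add hlam]; congr 1; ring
            rw [e2]
            have e3 : 18 * C1 * (64 * (d:ℝ) ^ 2 + 16) * (lam ^ (s / 2) * ℓ) ≤ 1 := by
              have e4 : 0 < 18 * C1 * (64 * (d:ℝ) ^ 2 + 16) := by positivity
              have e5 := mul_le_mul_of_nonneg_left k10.le e4.le
              rwa [mul_one_div_cancel e4.ne'] at e5
            calc 18 * C1 * (64 * (d:ℝ) ^ 2 + 16) * ℓ * (lam ^ (2 - s) * lam ^ (s / 2))
                = lam ^ (2 - s) * (18 * C1 * (64 * (d:ℝ) ^ 2 + 16) * (lam ^ (s / 2) * ℓ)) := by ring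
              _ ≤ lam ^ (2 - s) * 1 := mul_le_mul_of_nonneg_left e3 h2s.le
              _ = _ := mul_one _
          have hr0 : 0 ≤ r := by linarith
          gcongr

/-- Every eigenfunction is spread beyond `λ^(-2+)`. -/
theorem every (d : ℕ) (hd : 1 ≤ d) (κ : ℝ) (hκ : 0 < κ) (s : ℝ) (hs : 0 < s) (hs1 : s ≤ 1)
    (b : ℝ) :
    ∃ lam0 : ℝ, 0 < lam0 ∧ ∀ (μ : Measure ℝ) [IsProbabilityMeasure μ], (∀ᵐ t ∂μ, |t| ≤ b) →
      ∀ lam : ℝ, 0 < lam → lam < lam0 → ∀ (L : ℕ) [NeZero L], lam ^ (-(2:ℝ)) ≤ (L:ℝ) →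
        (L:ℝ) ≤ Real.exp (lam ^ (-(s / 4))) →
        ∃ Bad : Set (T d L → ℝ), MeasurableSet Bad ∧
          (Measure.pi fun _ : T d L => μ).real Bad ≤ Real.exp (-(lam ^ (-(s / 4)))) ∧
          ∀ V, V ∉ Bad → (∀ x, |V x| ≤ b) → ∀ (E : ℝ) (u : T d L → ℂ),
            (∀ j : ℕ, j ≤ d → κ ≤ |E - 4 * j|) → (∀ x, Hz ((E:ℝ):ℂ) lam V u x = 0) →
            ∀ (y : T d L) (r : ℝ), 1 ≤ r → r ≤ lam ^ (-(2:ℝ)) →
              ∑ x ∈ cub y r, ‖u x‖ ^ 2 ≤
                lam ^ (2 - s) * r * ∑ x ∈ cub y (lam ^ (-(2:ℝ))), ‖u x‖ ^ 2 := by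
  obtain ⟨l0, hl0, h⟩ := every0 d hd κ hκ s hs hs1 b
  refine ⟨min l0 (1 / (|b| + 1)), lt_min hl0 (by positivity), ?_⟩
  intro μ _ hμ lam hlam hlam1 L _ hL1 hL2
  rw [lt_min_iff] at hlam1
  obtain ⟨Bad, h1, h2, h3⟩ := h μ hμ lam hlam hlam1.1 L hL1 hL2
  refine ⟨Bad, h1, h2, fun V hV hVb E u hE hu y r hr1 hr2 => ?_⟩
  have hlb : lam * (|b| + 1) < 1 := by
    have := hlam1.2
    rwa [lt_div_iff₀ (by positivity)] at this
  have hVB : ∀ x, |lam * V x| ≤ 1 := by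
    intro x
    rw [abs_mul, abs_of_pos hlam]
    have h4 : |V x| ≤ |b| + 1 := (hVb x).trans (by have := le_abs_self b; linarith)
    have := mul_le_mul_of_nonneg_left h4 hlam.le
    linarith
  by_cases hEl : 4 * (d:ℝ) + 1 < |E|
  · have hz := zero_of_large hVB hu hEl
    have h5 : ∑ x ∈ cub y r, ‖u x‖ ^ 2 = 0 := Finset.sum_eq_zero fun x _ => by rw [hz x]; simp
    rw [h5]
    have h6 : 0 < lam ^ (2 - s) := Real.rpow_pos_of_pos hlam _
    have h7 : 0 ≤ ∑ x ∈ cub y (lam ^ (-(2:ℝ))), ‖u x‖ ^ 2 :=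
      Finset.sum_nonneg fun _ _ => by positivity
    positivity
  push_neg at hEl
  have h4 := h3 V hV E u hEl hE y r hr1 hr2
  have h5 : ∑ x ∈ cub y (lam ^ (-(2:ℝ))), ‖Hz ((E:ℝ):ℂ) lam V u x‖ ^ 2 = 0 :=
    Finset.sum_eq_zero fun x _ => by rw [hu x]; simp
  rwa [h5, mul_zero, add_zero] at h4

end Pool.Agent.Zk60.AE
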