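import Pool.Agent.Zk60.AE.Log0

/-!
The local estimate with explicit logarithms.
-/

set_option autoImplicit false
set_option linter.unusedSectionVars false

open scoped BigOperators
open MeasureTheory Filter Topology

namespace Pool.Agent.Zk60.AE

open Pool.Agent.W788.MFP.Four (T e NN adj adj_neg e_comm e_add_left e_add e_zero e_neg e_neg_left
  e_normSq sum_e NN_pos card_T e_single)
open Pool.Agent.Zk11.QD

/-- The parameters. -/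
theorem params (κ B C2 K : ℝ) (hκ : 0 < κ) (hB : 0 < B) (hC2 : 0 < C2) (d : ℕ) :
    ∃ D η1 lam0 : ℝ, 1 ≤ D ∧ 0 < η1 ∧ η1 ≤ 1 / 2 ∧ η1 ≤ κ / 4 ∧ 0 < lam0 ∧
      256 * B ^ 2 * C2 * Real.exp K ≤ D ∧
      ∀ lam : ℝ, 0 < lam → lam < lam0 → ∀ L : ℝ, lam ^ (-(2:ℝ)) ≤ L →
        lam * B < κ / 4 ∧ lam * B < 1 ∧ 8 * (d:ℝ) + 9 ≤ L ∧ lam ^ 2 ≤ 1 / 4 ∧
        2 ≤ Real.log (1 / lam) ∧ 4 ≤ Real.log L ∧ lam ^ (-(2:ℝ)) * lam ^ 2 = 1 ∧
        0 < lam ^ (-(2:ℝ)) ∧ 4 ≤ lam ^ (-(2:ℝ)) := by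
  refine ⟨256 * B ^ 2 * C2 * Real.exp K + 1, min (1 / 2) (κ / 4),
    min (Real.exp (-2)) (min (κ / 4 / B) (min (1 / B) (1 / (8 * d + 9)))), ?_, by positivity,
    min_le_left _ _, min_le_right _ _, by positivity, by linarith, ?_⟩
  · have : 0 ≤ 256 * B ^ 2 * C2 * Real.exp K := by positivity
    linarith
  intro lam hlam hlam1 L hL1
  rw [lt_min_iff, lt_min_iff, lt_min_iff] at hlam1
  obtain ⟨k1, k2, k3, k4⟩ := hlam1
  rw [lt_div_iff₀ hB] at k2 k3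
  rw [lt_div_iff₀ (by positivity)] at k4
  have hℓe : Real.log (1 / lam) = -Real.log lam := by rw [one_div, Real.log_inv]
  have hℓ2 : 2 ≤ Real.log (1 / lam) := by
    have h1 := Real.log_lt_log hlam k1
    rw [Real.log_exp] at h1
    rw [hℓe]
    linarith
  have hlam2 : lam < 1 / 2 := by
    have h1 : Real.exp (-2) < 1 / 2 := by
      rw [Real.exp_neg, inv_eq_one_div]
      refine one_div_lt_one_div_of_lt (by norm_num) ?_
      have := Real.add_one_lt_exp (show (2:ℝ) ≠ 0 by norm_num)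
      linarith
    linarith
  have hl4 : lam ^ 2 ≤ 1 / 4 := by nlinarith
  have hm2 : 0 < lam ^ (-(2:ℝ)) := Real.rpow_pos_of_pos hlam _
  have hm2' : lam ^ (-(2:ℝ)) = (lam ^ 2)⁻¹ := by
    rw [Real.rpow_neg hlam.le]
    congr 1
    exact_mod_cast Real.rpow_natCast lam 2
  have hm2p : lam ^ (-(2:ℝ)) * lam ^ 2 = 1 := by
    rw [hm2']
    exact inv_mul_cancel₀ (by positivity)
  have hm24 : 4 ≤ lam ^ (-(2:ℝ)) := by
    rw [hm2']
    rw [le_inv_comm₀ (by norm_num) (by positivity)]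
    linarith
  have hL0 : 0 < L := lt_of_lt_of_le hm2 hL1
  have hΛ : 4 ≤ Real.log L := by
    have h1 := Real.log_le_log hm2 hL1
    rw [Real.log_rpow hlam] at h1
    linarith
  refine ⟨k2, k3, ?_, hl4, hℓ2, hΛ, hm2p, hm2, hm24⟩
  have h2 : (8 * (d:ℝ) + 9) * lam ^ 2 ≤ 1 := by
    have h3 : lam ^ 2 ≤ lam := by nlinarith
    have h4 : (8 * (d:ℝ) + 9) * lam ^ 2 ≤ (8 * (d:ℝ) + 9) * lam := by gcongr
    linarith
  have h1 : 8 * (d:ℝ) + 9 ≤ lam ^ (-(2:ℝ)) := by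
    calc 8 * (d:ℝ) + 9 = (8 * (d:ℝ) + 9) * (lam ^ (-(2:ℝ)) * lam ^ 2) := by rw [hm2p, mul_one]
      _ = lam ^ (-(2:ℝ)) * ((8 * (d:ℝ) + 9) * lam ^ 2) := by ring
      _ ≤ lam ^ (-(2:ℝ)) * 1 := by gcongr
      _ = _ := mul_one _
  linarith

/-- The grid energy. -/
theorem grid_energy {E η lam m B κ : ℝ} {d : ℕ} (hη0 : 0 < η) (hη2 : η ≤ 1 / 2) (hη4 : η ≤ κ / 4)
    (hlam : 0 < lam) (hmB : |m| ≤ B) (k2 : lam * B < κ / 4) (k3 : lam * B < 1)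
    (hEl : |E| ≤ 4 * d + 1) (hE : ∀ j : ℕ, j ≤ d → κ ≤ |E - 4 * j|) :
    ∃ n : ℤ, |n| ≤ ((⌈(4 * (d:ℝ) + 3) / η⌉₊ : ℕ) : ℤ) ∧
      (∀ j : ℕ, j ≤ d → κ / 2 ≤ |(n:ℝ) * η - 4 * j|) ∧ |E - ((n:ℝ) * η + lam * m)| ≤ η := by
  set n : ℤ := round ((E - lam * m) / η) with hn
  have hn1 : |(E - lam * m) / η - n| ≤ 1 / 2 := abs_sub_round _
  have hn2 : |E - lam * m - n * η| ≤ η / 2 := by
    have e1 : E - lam * m - n * η = ((E - lam * m) / η - n) * η := by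
      field_simp
    rw [e1, abs_mul, abs_of_pos hη0]
    nlinarith
  have hlm : |lam * m| ≤ lam * B := by
    rw [abs_mul, abs_of_pos hlam]
    exact mul_le_mul_of_nonneg_left hmB hlam.le
  have hn3 : |(n:ℝ) * η| ≤ 4 * d + 3 := by
    have e1 : |(n:ℝ) * η| ≤ |E| + |lam * m| + |E - lam * m - n * η| := by
      have e2 : (n:ℝ) * η = E - lam * m - (E - lam * m - n * η) := by ring
      calc |(n:ℝ) * η| = |E - lam * m - (E - lam * m - n * η)| := by rw [← e2]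
        _ ≤ |E - lam * m| + |E - lam * m - n * η| := abs_sub _ _
        _ ≤ _ := by
            have := abs_sub E (lam * m)
            linarith
    linarith
  refine ⟨n, ?_, ?_, ?_⟩
  · have e1 : |(n:ℝ)| ≤ ((⌈(4 * (d:ℝ) + 3) / η⌉₊ : ℕ) : ℝ) := by
      refine le_trans ?_ (Nat.le_ceil _)
      rw [le_div_iff₀ hη0]
      rwa [abs_mul, abs_of_pos hη0] at hn3
    exact_mod_cast e1
  · intro j hj
    have e1 := hE j hj
    have e2 : |E - 4 * j| ≤ |(n:ℝ) * η - 4 * j| + |E - lam * m - n * η| + |lam * m| := by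
      have e3 : E - 4 * (j:ℝ) = ((n:ℝ) * η - 4 * j) + (E - lam * m - n * η) + lam * m := by
        ring
      rw [e3]
      exact abs_add_three _ _ _
    linarith
  · have e1 : E - ((n:ℝ) * η + lam * m) = E - lam * m - n * η := by ring
    rw [e1]
    linarith

/-- The local estimate for all functions, with explicit logarithms. -/
theorem every1 (d : ℕ) (hd : 1 ≤ d) (κ : ℝ) (hκ : 0 < κ) (A : ℝ) (hA : 0 < A) (b : ℝ) :
    ∃ C lam0 : ℝ, 0 < C ∧ 0 < lam0 ∧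
      ∀ (μ : Measure ℝ) [IsProbabilityMeasure μ], (∀ᵐ t ∂μ, |t| ≤ b) →
      ∀ lam : ℝ, 0 < lam → lam < lam0 → ∀ (L : ℕ) [NeZero L], lam ^ (-(2:ℝ)) ≤ (L:ℝ) →
        ∃ Bad : Set (T d L → ℝ), MeasurableSet Bad ∧
          (Measure.pi fun _ : T d L => μ).real Bad ≤ (L:ℝ) ^ (-A) ∧
          ∀ V, V ∉ Bad → ∀ (E : ℝ) (u : T d L → ℂ), |E| ≤ 4 * d + 1 →
            (∀ j : ℕ, j ≤ d → κ ≤ |E - 4 * j|) →
            ∀ (y : T d L) (r : ℝ), 1 ≤ r → r ≤ lam ^ (-(2:ℝ)) →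
              ∑ x ∈ cub y r, ‖u x‖ ^ 2 ≤
                C * lam ^ 2 * Real.log (1 / lam) ^ 2 * Real.log L * r *
                  (∑ x ∈ cub y (lam ^ (-(2:ℝ))), ‖u x‖ ^ 2 +
                    lam ^ (-(4:ℝ)) * ∑ x ∈ cub y (lam ^ (-(2:ℝ))),
                      ‖Hz ((E:ℝ):ℂ) lam V u x‖ ^ 2) := by
  obtain ⟨C1, hC1, slab1⟩ := slab one_d d hd (κ / 2) (by linarith)
  obtain ⟨C2, hC2, diag1⟩ := diag0 one_d d hd (κ / 2) (by linarith)
  obtain ⟨B, hB⟩ : ∃ B : ℝ, B = |b| + 1 := ⟨_, rfl⟩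
  have hB0 : 0 < B := by rw [hB]; positivity
  have hbB : b ≤ B := by rw [hB]; have := le_abs_self b; linarith
  obtain ⟨K, hK⟩ : ∃ K : ℝ, K = d + 3 + A := ⟨_, rfl⟩
  have hK0 : 0 < K := by rw [hK]; positivity
  obtain ⟨D, η1, lam0, hD1, hη10, hη12, hη14, hlam0, hDK, hpar⟩ := params κ B C2 K hκ hB0 hC2 d
  have hD0 : 0 < D := by linarith
  obtain ⟨C, hCd⟩ : ∃ C : ℝ, C = D / η1 + 18 * C1 * (64 * d ^ 2 + 16) * D := ⟨_, rfl⟩
  have hCD1 : D / η1 ≤ C := by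
    have : 0 ≤ 18 * C1 * (64 * (d:ℝ) ^ 2 + 16) * D := by positivity
    linarith
  have hCD : D ≤ C := by
    refine le_trans ?_ hCD1
    rw [le_div_iff₀ hη10]
    nlinarith
  have hCD2 : 18 * C1 * (64 * d ^ 2 + 16) * D ≤ C := by
    have : 0 < D / η1 := by positivity
    linarith
  have hC0 : 0 < C := by linarith
  refine ⟨C, lam0, hC0, hlam0, ?_⟩
  intro μ _ hμ lam hlam hlam1 L _ hL1
  obtain ⟨k2, k3, hL8, hl4, hℓ2, hΛ4, hm2p, hm2, hm24⟩ := hpar lam hlam hlam1 L hL1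
  obtain ⟨ℓ, hℓ⟩ : ∃ ℓ : ℝ, ℓ = Real.log (1 / lam) := ⟨_, rfl⟩
  obtain ⟨Λ, hΛ⟩ : ∃ Λ : ℝ, Λ = Real.log L := ⟨_, rfl⟩
  rw [← hℓ] at hℓ2 ⊢
  rw [← hΛ] at hΛ4 ⊢
  have hL0 : (0:ℝ) < L := by linarith
  have hm2' : lam ^ (-(2:ℝ)) = (lam ^ 2)⁻¹ := eq_inv_of_mul_eq_one_left hm2p
  have hlq : 0 < lam ^ 2 := by positivity
  obtain ⟨η, hη⟩ : ∃ η : ℝ, η = D * lam ^ 2 * ℓ * Λ := ⟨_, rfl⟩
  have hℓ0 : 0 < ℓ := by linarith
  have hΛ0 : 0 < Λ := by linarith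
  have hη0 : 0 < η := by rw [hη]; positivity
  have hηlow : 8 * lam ^ 2 ≤ η := by
    have h1 : 8 ≤ ℓ * Λ := by nlinarith
    calc 8 * lam ^ 2 = 1 * (lam ^ 2) * 8 := by ring
      _ ≤ D * lam ^ 2 * (ℓ * Λ) := by gcongr
      _ = η := by rw [hη]; ring
  -- the case of a large `r`
  have htriv : ∀ r : ℝ, 1 / (η * ℓ) ≤ r ∨ (η1 < η ∧ 1 ≤ r) →
      1 ≤ C * lam ^ 2 * ℓ ^ 2 * Λ * r := by
    intro r hr
    have e1 : C * lam ^ 2 * ℓ ^ 2 * Λ * r = (C / D) * (η * ℓ) * r := by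
      rw [hη]; field_simp
    rw [e1]
    rcases hr with hr | ⟨hr, hr1⟩
    · have h1 : 1 ≤ C / D := by rw [le_div_iff₀ hD0]; linarith
      rw [div_le_iff₀ (by positivity)] at hr
      calc (1:ℝ) = 1 * 1 := by norm_num
        _ ≤ (C / D) * (r * (η * ℓ)) := by gcongr
        _ = _ := by ring
    · have h1 : 1 / η1 ≤ C / D := by
        rw [div_le_div_iff₀ hη10 hD0]
        rw [div_le_iff₀ hη10] at hCD1
        linarith
      have h2 : 1 ≤ η * ℓ / η1 := by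
        rw [le_div_iff₀ hη10]
        nlinarith
      calc (1:ℝ) ≤ (η * ℓ / η1) * 1 := by linarith
        _ = (1 / η1) * (η * ℓ) * 1 := by ring
        _ ≤ (C / D) * (η * ℓ) * r := by gcongr
  -- the trivial bound
  have hT : ∀ (V : T d L → ℝ) (E : ℝ) (u : T d L → ℂ) (y : T d L) (r : ℝ),
      r ≤ lam ^ (-(2:ℝ)) → 1 ≤ C * lam ^ 2 * ℓ ^ 2 * Λ * r →
      ∑ x ∈ cub y r, ‖u x‖ ^ 2 ≤ C * lam ^ 2 * ℓ ^ 2 * Λ * r *
        (∑ x ∈ cub y (lam ^ (-(2:ℝ))), ‖u x‖ ^ 2 + lam ^ (-(4:ℝ)) *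
          ∑ x ∈ cub y (lam ^ (-(2:ℝ))), ‖Hz ((E:ℝ):ℂ) lam V u x‖ ^ 2) := by
    intro V E u y r hr2 h2
    have h1 : ∑ x ∈ cub y r, ‖u x‖ ^ 2 ≤ ∑ x ∈ cub y (lam ^ (-(2:ℝ))), ‖u x‖ ^ 2 :=
      Finset.sum_le_sum_of_subset_of_nonneg (cub_mono hr2) fun _ _ _ => by positivity
    have hnn : 0 ≤ ∑ x ∈ cub y (lam ^ (-(2:ℝ))), ‖u x‖ ^ 2 :=
      Finset.sum_nonneg fun _ _ => by positivity
    have hnn2 : 0 ≤ lam ^ (-(4:ℝ)) * ∑ x ∈ cub y (lam ^ (-(2:ℝ))),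
        ‖Hz ((E:ℝ):ℂ) lam V u x‖ ^ 2 := mul_nonneg (Real.rpow_nonneg hlam.le _)
      (Finset.sum_nonneg fun _ _ => by positivity)
    refine h1.trans ?_
    refine le_trans ?_ (le_mul_of_one_le_left (add_nonneg hnn hnn2) h2)
    linarith
  by_cases hcase : η1 < η
  · exact ⟨∅, MeasurableSet.empty, by simp; positivity, fun V _ E u _ _ y r hr1 hr2 =>
      hT V E u y r hr2 (htriv r (Or.inr ⟨hcase, hr1⟩))⟩
  replace hcase := not_lt.1 hcase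
  have hη2 : η ≤ 1 / 2 := hcase.trans hη12
  have hη4 : η ≤ κ / 4 := hcase.trans hη14
  have hlogη : Real.log (1 / η) ≤ 2 * ℓ := by
    have h1 : 1 / η ≤ (1 / lam) ^ 2 := by
      rw [one_div_pow]
      apply one_div_le_one_div_of_le hlq
      linarith
    have h2 := Real.log_le_log (by positivity) h1
    rw [hℓ]
    rwa [Real.log_pow, Nat.cast_ofNat] at h2
  have hlogη0 : 0 ≤ Real.log (1 / η) := Real.log_nonneg (by rw [le_div_iff₀ hη0]; linarith)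
  have hLη : 1 / (L:ℝ) ≤ η := by
    rw [div_le_iff₀ hL0]
    have h1 : 8 * lam ^ 2 * lam ^ (-(2:ℝ)) ≤ η * L := by gcongr
    have h2 : 8 * lam ^ 2 * lam ^ (-(2:ℝ)) = 8 := by
      rw [mul_assoc, mul_comm (lam ^ 2), hm2p]; norm_num
    linarith
  have hηi : η⁻¹ ≤ lam ^ (-(2:ℝ)) := by
    rw [hm2']
    apply inv_anti₀ hlq
    linarith
  -- the mean
  obtain ⟨m, hm⟩ : ∃ m : ℝ, ∫ t, t ∂μ = m := ⟨_, rfl⟩
  have hμB : ∀ᵐ t ∂μ, |t| ≤ B := hμ.mono fun t ht => ht.trans hbB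
  have hmB : |m| ≤ B := by
    have h1 := norm_integral_le_of_norm_le_const (μ := μ) (f := fun t : ℝ => t) (C := B)
      (hμB.mono fun t ht => by simpa using ht)
    rw [hm] at h1
    simpa using h1
  have hμ2 : ∀ᵐ t ∂μ, |t - m| ≤ 2 * B := by
    filter_upwards [hμB] with t ht
    have := abs_sub t m
    linarith
  obtain ⟨p, hp⟩ : ∃ p : ℕ, p = ⌈Λ⌉₊ := ⟨_, rfl⟩
  have hpX : Λ ≤ p := by rw [hp]; exact Nat.le_ceil Λ
  have hpX2 : (p:ℝ) ≤ 2 * Λ := by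
    have := Nat.ceil_lt_add_one (show (0:ℝ) ≤ Λ by linarith)
    rw [← hp] at this
    linarith
  have hp1 : 1 ≤ p := by
    have : (1:ℝ) ≤ p := by linarith
    exact_mod_cast this
  obtain ⟨G, hG⟩ : ∃ G : ℝ, G = C2 * Real.log (1 / η) := ⟨_, rfl⟩
  have hG0 : 0 ≤ G := by rw [hG]; positivity
  have hG2 : G ≤ C2 * (2 * ℓ) := by rw [hG]; exact mul_le_mul_of_nonneg_left hlogη hC2.le
  have hexpL : Real.exp Λ = L := by rw [hΛ]; exact Real.exp_log hL0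
  have hqq : 16 * (2 * B) ^ 2 * p * G * lam ^ 2 / η ≤ Real.exp (-K) := by
    rw [div_le_iff₀ hη0]
    calc 16 * (2 * B) ^ 2 * p * G * lam ^ 2
        ≤ 16 * (2 * B) ^ 2 * (2 * Λ) * (C2 * (2 * ℓ)) * lam ^ 2 := by gcongr
      _ = (256 * B ^ 2 * C2) * (lam ^ 2 * ℓ * Λ) := by ring
      _ = Real.exp (-K) * ((256 * B ^ 2 * C2 * Real.exp K) * (lam ^ 2 * ℓ * Λ)) := by
          rw [Real.exp_neg]
          have := (Real.exp_pos K).ne'
          field_simp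
      _ ≤ Real.exp (-K) * (D * (lam ^ 2 * ℓ * Λ)) := by gcongr
      _ = Real.exp (-K) * η := by rw [hη]; ring
  obtain ⟨M, hM⟩ : ∃ M : ℕ, M = ⌈(4 * (d:ℝ) + 3) / η⌉₊ := ⟨_, rfl⟩
  obtain ⟨Bad, b1, b2, b3⟩ := grid (d := d) (L := L) (G := G) (q := Real.exp (-K)) hη0 hlam
    (by positivity : (0:ℝ) ≤ 2 * B)
    (fun n : ℤ => ∀ j : ℕ, j ≤ d → κ / 2 ≤ |(n:ℝ) * η - 4 * j|)
    (fun n hn => by rw [hG]; exact diag1 L η hLη hη2 _ hn) μ hμ2 hm p hp1 (Real.exp_pos _).le hG0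
    hqq M
  refine ⟨Bad, b1, b2.trans ?_, ?_⟩
  · have e2 : (2 * (M:ℝ) + 1) ≤ Real.exp (2 * Λ) := by
      have e3 : (M:ℝ) ≤ (4 * d + 3) / η + 1 := by
        rw [hM]
        exact (Nat.ceil_lt_add_one (by positivity)).le
      have e4 : (4 * (d:ℝ) + 3) / η ≤ (4 * d + 3) * L := by
        rw [div_eq_mul_inv]
        exact mul_le_mul_of_nonneg_left (hηi.trans hL1) (by positivity)
      have e5 : Real.exp (2 * Λ) = (L:ℝ) * L := by
        rw [two_mul, Real.exp_add, hexpL]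
      have e6 : (8 * (d:ℝ) + 9) * L ≤ L * L := mul_le_mul_of_nonneg_right hL8 hL0.le
      have hd0 : (0:ℝ) ≤ d := Nat.cast_nonneg d
      rw [e5]
      linarith
    have e3 : (L:ℝ) ^ d * Real.exp (-K) ^ p ≤ Real.exp (-((3 + A) * Λ)) := by
      rw [← hexpL, ← Real.exp_nat_mul, ← Real.exp_nat_mul, ← Real.exp_add]
      apply Real.exp_le_exp.2
      have h1 : Λ * K ≤ p * K := mul_le_mul_of_nonneg_right hpX hK0.le
      have h2 : Λ * K = d * Λ + (3 + A) * Λ := by rw [hK]; ring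
      linarith
    calc (2 * (M:ℝ) + 1) * ((L:ℝ) ^ d * Real.exp (-K) ^ p)
        ≤ Real.exp (2 * Λ) * Real.exp (-((3 + A) * Λ)) := by gcongr
      _ = Real.exp (-((1 + A) * Λ)) := by rw [← Real.exp_add]; congr 1; ring
      _ ≤ Real.exp (Λ * (-A)) := by
          apply Real.exp_le_exp.2
          linarith
      _ = (L:ℝ) ^ (-A) := by rw [Real.rpow_def_of_pos hL0, hΛ]
  · intro V hV E u hEl hE y r hr1 hr2
    by_cases hr3 : r ≤ 1 / η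
    swap
    · replace hr3 := not_le.1 hr3
      refine hT V E u y r hr2 (htriv r (Or.inl (le_trans ?_ hr3.le)))
      apply one_div_le_one_div_of_le hη0
      nlinarith
    obtain ⟨n, hn1, hgood, hn2⟩ := grid_energy hη0 hη2 hη4 hlam hmB k2 k3 hEl hE
    have hX3 := b3 V hV n (by rw [hM]; exact hn1) hgood
    have hr0 : 0 ≤ r := by linarith
    have hmain := local2 (E := (n:ℝ) * η) (lam := lam) (m := m) (Γ := C1 * Real.log (1 / η))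
      (R := lam ^ (-(2:ℝ)))
      hη0 (by linarith) V hX3 (by positivity)
      (by
        intro g y' r' hr'
        have e1 := slab1 L η hLη hη2 ((n:ℝ) * η) hgood g y' r' hr'
        refine e1.trans (le_of_eq ?_)
        ring) hn2
      (by
        have e1 : 2 / η ≤ lam ^ (-(2:ℝ)) / 4 := by
          rw [div_le_iff₀ hη0, hm2']
          calc (2:ℝ) = (lam ^ 2)⁻¹ / 4 * (8 * lam ^ 2) := by field_simp; norm_num
            _ ≤ (lam ^ 2)⁻¹ / 4 * η := by gcongr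
        linarith) u y r hr0 hr3
    refine hmain.trans ?_
    have hnn : 0 ≤ ∑ x ∈ cub y (lam ^ (-(2:ℝ))), ‖u x‖ ^ 2 :=
      Finset.sum_nonneg fun _ _ => by positivity
    have hnn2 : 0 ≤ ∑ x ∈ cub y (lam ^ (-(2:ℝ))), ‖Hz ((E:ℝ):ℂ) lam V u x‖ ^ 2 :=
      Finset.sum_nonneg fun _ _ => by positivity
    generalize ∑ x ∈ cub y (lam ^ (-(2:ℝ))), ‖u x‖ ^ 2 = D' at hnn ⊢
    generalize ∑ x ∈ cub y (lam ^ (-(2:ℝ))), ‖Hz ((E:ℝ):ℂ) lam V u x‖ ^ 2 = K' at hnn2 ⊢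
    have hη44 : η⁻¹ ≤ η * lam ^ (-(4:ℝ)) := by
      have e1 : lam ^ (-(4:ℝ)) = lam ^ (-(2:ℝ)) * lam ^ (-(2:ℝ)) := by
        rw [← Real.rpow_add hlam]; norm_num
      have e2 : η⁻¹ = η * (η⁻¹ * η⁻¹) := by field_simp
      rw [e1, e2]
      have e3 : 0 < η⁻¹ := inv_pos.2 hη0
      gcongr
    have h4 : 0 < lam ^ (-(4:ℝ)) := Real.rpow_pos_of_pos hlam _
    have h5 : 3 * η * D' + 2 * η⁻¹ * K' ≤ 3 * η * (D' + lam ^ (-(4:ℝ)) * K') := by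
      have e3 : η⁻¹ * K' ≤ (η * lam ^ (-(4:ℝ))) * K' := mul_le_mul_of_nonneg_right hη44 hnn2
      have e5 : 0 ≤ η * (lam ^ (-(4:ℝ)) * K') := by positivity
      linarith
    have hW : 0 ≤ D' + lam ^ (-(4:ℝ)) * K' := by positivity
    generalize D' + lam ^ (-(4:ℝ)) * K' = W at h5 hW ⊢
    calc C1 * Real.log (1 / η) * (2 * r + 1) * (64 * (d:ℝ) ^ 2 + 16) *
        (3 * η * D' + 2 * η⁻¹ * K')
        ≤ C1 * (2 * ℓ) * (3 * r) * (64 * (d:ℝ) ^ 2 + 16) * (3 * η * W) := by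
          have e6 : 2 * r + 1 ≤ 3 * r := by linarith
          have e7 : 0 ≤ 3 * η * W := by positivity
          calc C1 * Real.log (1 / η) * (2 * r + 1) * (64 * (d:ℝ) ^ 2 + 16) *
              (3 * η * D' + 2 * η⁻¹ * K')
              ≤ C1 * Real.log (1 / η) * (2 * r + 1) * (64 * (d:ℝ) ^ 2 + 16) * (3 * η * W) :=
                mul_le_mul_of_nonneg_left h5 (by positivity)
            _ ≤ C1 * (2 * ℓ) * (3 * r) * (64 * (d:ℝ) ^ 2 + 16) * (3 * η * W) := by gcongr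
      _ = (18 * C1 * (64 * d ^ 2 + 16) * D) * (lam ^ 2 * ℓ ^ 2 * Λ * r * W) := by
          rw [hη]; ring
      _ ≤ C * (lam ^ 2 * ℓ ^ 2 * Λ * r * W) := by gcongr
      _ = _ := by ring

end Pool.Agent.Zk60.AE
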