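import Pool.Agent.Zk60.AE.Zd

/-!
Two lemmas for the local estimate with explicit logarithms.
-/

set_option autoImplicit false
set_option linter.unusedSectionVars false

open scoped BigOperators
open MeasureTheory Filter Topology

namespace Pool.Agent.Zk60.AE

open Pool.Agent.W788.MFP.Four (T e NN adj adj_neg e_comm e_add_left e_add e_zero e_neg e_neg_left
  e_normSq sum_e NN_pos card_T e_single)
open Pool.Agent.Zk11.QD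

theorem norm_sq_add (x y : ℂ) : ‖x + y‖ ^ 2 ≤ 2 * ‖x‖ ^ 2 + 2 * ‖y‖ ^ 2 := by
  have h1 := norm_add_le x y
  have h2 := norm_nonneg (x + y)
  nlinarith [sq_nonneg (‖x‖ - ‖y‖), norm_nonneg x, norm_nonneg y]

variable {d L : ℕ} [NeZero L]

/-- The local estimate for an energy near the grid energy. -/
theorem local2 {E E' η lam m Γ R : ℝ} (hη : 0 < η) (hη1 : η ≤ 1) (V : T d L → ℝ)
    (hX : ∀ z : T d L → ℂ, ∑ y, ‖(lam : ℂ) * ∑ x, Tk E η (y - x) *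
      (((V x - m : ℝ) : ℂ) * ∑ w, Tk E η (x - w) * z w)‖ ^ 2 ≤ 1 / 4 * ∑ y, ‖z y‖ ^ 2)
    (hΓ : 0 ≤ Γ)
    (hs : ∀ (g : T d L → ℂ) (y : T d L) (r : ℝ), 0 ≤ r →
      ∑ x ∈ cub y r, ‖kc (fun k => (tw E η k : ℂ) * g k) x‖ ^ 2 ≤
        Γ * (2 * r + 1) * ((NN d L)⁻¹ * ∑ k, ‖g k‖ ^ 2))
    (hE : |E' - (E + lam * m)| ≤ η) (hR : 2 / η + 2 ≤ R)
    (u : T d L → ℂ) (y : T d L) (r : ℝ) (hr0 : 0 ≤ r) (hr : r ≤ 1 / η) :
    ∑ x ∈ cub y r, ‖u x‖ ^ 2 ≤ Γ * (2 * r + 1) * (64 * d ^ 2 + 16) *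
      (3 * η * ∑ x ∈ cub y R, ‖u x‖ ^ 2 +
        2 * η⁻¹ * ∑ x ∈ cub y R, ‖Hz ((E' : ℝ) : ℂ) lam V u x‖ ^ 2) := by
  have hmain := local_est hη hη1 V hX hΓ hs u y r hr0 hr
  have hsub : cub y (2 / η + 2) ⊆ cub y R := cub_mono hR
  have hAA : ∑ x ∈ cub y (2 / η + 2), ‖u x‖ ^ 2 ≤ ∑ x ∈ cub y R, ‖u x‖ ^ 2 :=
    Finset.sum_le_sum_of_subset_of_nonneg hsub fun _ _ _ => by positivity
  have hHs : ∑ x ∈ cub y (2 / η + 2), ‖Hz ((E' : ℝ) : ℂ) lam V u x‖ ^ 2 ≤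
      ∑ x ∈ cub y R, ‖Hz ((E' : ℝ) : ℂ) lam V u x‖ ^ 2 :=
    Finset.sum_le_sum_of_subset_of_nonneg hsub fun _ _ _ => by positivity
  have hBs : ∑ x ∈ cub y (2 / η + 2),
      ‖Hz ((E + lam * m : ℝ) : ℂ) lam V u x‖ ^ 2 ≤
      2 * ∑ x ∈ cub y (2 / η + 2), ‖Hz ((E' : ℝ) : ℂ) lam V u x‖ ^ 2 +
      2 * (η ^ 2 * ∑ x ∈ cub y (2 / η + 2), ‖u x‖ ^ 2) := by
    rw [Finset.mul_sum, Finset.mul_sum, Finset.mul_sum, ← Finset.sum_add_distrib]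
    refine Finset.sum_le_sum fun x _ => ?_
    rw [Hz_shift ((E' : ℝ) : ℂ)]
    have e1 : ((E' : ℝ) : ℂ) - ((E + lam * m : ℝ) : ℂ) =
        ((E' - (E + lam * m) : ℝ) : ℂ) := by
      push_cast; ring
    rw [e1]
    have e2 : (E' - (E + lam * m)) ^ 2 ≤ η ^ 2 := by
      rw [← sq_abs (E' - (E + lam * m))]
      exact pow_le_pow_left₀ (abs_nonneg _) hE 2
    have e3 : ‖((E' - (E + lam * m) : ℝ) : ℂ) * u x‖ ^ 2 ≤ η ^ 2 * ‖u x‖ ^ 2 := by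
      rw [norm_mul, mul_pow, Complex.norm_real, Real.norm_eq_abs, sq_abs]
      exact mul_le_mul_of_nonneg_right e2 (by positivity)
    have e4 := norm_sq_add (Hz ((E' : ℝ) : ℂ) lam V u x) (((E' - (E + lam * m) : ℝ) : ℂ) * u x)
    linarith
  refine hmain.trans ?_
  refine mul_le_mul_of_nonneg_left ?_ (by positivity)
  set A' := ∑ x ∈ cub y (2 / η + 2), ‖u x‖ ^ 2 with hAd
  set D' := ∑ x ∈ cub y R, ‖u x‖ ^ 2 with hDd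
  set F := ∑ x ∈ cub y (2 / η + 2), ‖Hz ((E' : ℝ) : ℂ) lam V u x‖ ^ 2 with hFd
  set K' := ∑ x ∈ cub y R, ‖Hz ((E' : ℝ) : ℂ) lam V u x‖ ^ 2 with hKd
  set Z := ∑ x ∈ cub y (2 / η + 2), ‖Hz ((E + lam * m : ℝ) : ℂ) lam V u x‖ ^ 2 with hZ
  have hηi : 0 < η⁻¹ := inv_pos.2 hη
  have e1 : η⁻¹ * Z ≤ η⁻¹ * (2 * F + 2 * (η ^ 2 * A')) := mul_le_mul_of_nonneg_left hBs hηi.le
  have e2 : η⁻¹ * (2 * F + 2 * (η ^ 2 * A')) = 2 * (η⁻¹ * F) + 2 * (η * A') := by field_simp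
  have e3 : η⁻¹ * F ≤ η⁻¹ * K' := mul_le_mul_of_nonneg_left hHs hηi.le
  have e4 : η * A' ≤ η * D' := mul_le_mul_of_nonneg_left hAA hη.le
  rw [e2] at e1
  linarith

/-- The bad event for a grid of energies. -/
theorem grid {η G lam b m q : ℝ} (hη : 0 < η) (hlam : 0 < lam) (hb : 0 ≤ b)
    (good : ℤ → Prop)
    (hG : ∀ n : ℤ, good n → (NN d L)⁻¹ * ∑ k : T d L, tw ((n:ℝ) * η) η k ^ 2 ≤ G)
    (μ : Measure ℝ) [IsProbabilityMeasure μ] (hμ : ∀ᵐ s ∂μ, |s - m| ≤ b) (hm : ∫ s, s ∂μ = m)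
    (p : ℕ) (hp : 1 ≤ p) (hq : 0 ≤ q) (hG0 : 0 ≤ G)
    (hqq : 16 * b ^ 2 * p * G * lam ^ 2 / η ≤ q) (M : ℕ) :
    ∃ Bad : Set (T d L → ℝ), MeasurableSet Bad ∧
      (Measure.pi fun _ : T d L => μ).real Bad ≤ (2 * M + 1) * ((L:ℝ) ^ d * q ^ p) ∧
      ∀ V, V ∉ Bad → ∀ n : ℤ, |n| ≤ (M:ℤ) → good n →
        ∀ z : T d L → ℂ, ∑ y, ‖(lam : ℂ) * ∑ x, Tk ((n:ℝ) * η) η (y - x) *
        (((V x - m : ℝ) : ℂ) * ∑ w, Tk ((n:ℝ) * η) η (x - w) * z w)‖ ^ 2 ≤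
          1 / 4 * ∑ y, ‖z y‖ ^ 2 := by
  have hone : ∀ n : ℤ, ∃ Bad : Set (T d L → ℝ), MeasurableSet Bad ∧
      (Measure.pi fun _ : T d L => μ).real Bad ≤ (L:ℝ) ^ d * q ^ p ∧
      (∀ V, V ∉ Bad → good n →
        ∀ z : T d L → ℂ, ∑ y, ‖(lam : ℂ) * ∑ x, Tk ((n:ℝ) * η) η (y - x) *
        (((V x - m : ℝ) : ℂ) * ∑ w, Tk ((n:ℝ) * η) η (x - w) * z w)‖ ^ 2 ≤
          1 / 4 * ∑ y, ‖z y‖ ^ 2) := by
    intro n
    by_cases hn : good n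
    · obtain ⟨Bad, q1, q2, q3⟩ := one_energy (d := d) (L := L) (E := (n:ℝ) * η) (G := G)
        hη hlam hb (hG n hn) μ hμ hm p hp
      refine ⟨Bad, q1, q2.trans ?_, fun V hV _ => q3 V hV⟩
      have e0 : 0 ≤ 16 * b ^ 2 * p * G * lam ^ 2 / η := by positivity
      gcongr
    · exact ⟨∅, MeasurableSet.empty, by simp; positivity, fun V _ h => absurd h hn⟩
  choose Bad hB1 hB2 hB3 using hone
  refine ⟨⋃ n ∈ Finset.Icc (-(M:ℤ)) M, Bad n, ?_, ?_, ?_⟩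
  · exact Finset.measurableSet_biUnion _ fun n _ => hB1 n
  · refine (measureReal_biUnion_finset_le _ _).trans ?_
    refine (Finset.sum_le_sum fun n _ => hB2 n).trans ?_
    rw [Finset.sum_const, nsmul_eq_mul, Int.card_Icc]
    have e1 : (((M:ℤ) + 1 - -(M:ℤ)).toNat : ℝ) = 2 * M + 1 := by
      have : ((M:ℤ) + 1 - -(M:ℤ)).toNat = 2 * M + 1 := by omega
      rw [this]
      push_cast
      ring
    rw [e1]
  · intro V hV n hn hgood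
    refine hB3 n V (fun h => hV (Set.mem_iUnion₂.2 ⟨n, ?_, h⟩)) hgood
    rw [Finset.mem_Icc]
    exact abs_le.1 hn

end Pool.Agent.Zk60.AE
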