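import Pool.Agent.Zk60.AE.Log

/-!
The local estimate on the lattice with explicit logarithms.
-/

set_option autoImplicit false
set_option linter.unusedSectionVars false

open scoped BigOperators
open MeasureTheory Filter Topology

namespace Pool.Agent.Zk60.AE

open Pool.Agent.W788.MFP.Four (T e NN adj adj_neg e_comm e_add_left e_add e_zero e_neg e_neg_left
  e_normSq sum_e NN_pos card_T e_single)
open Pool.Agent.Zk11.QD

/-- Every solution on the lattice is spread: explicit logarithms. -/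
theorem everyZ1 (d : ℕ) (hd : 1 ≤ d) (κ : ℝ) (hκ : 0 < κ) (A : ℝ) (hA : 0 < A) (b : ℝ) :
    ∃ C lam0 : ℝ, 0 < C ∧ 0 < lam0 ∧
      ∀ (μ : Measure ℝ) [IsProbabilityMeasure μ], (∀ᵐ t ∂μ, |t| ≤ b) →
      ∀ lam : ℝ, 0 < lam → lam < lam0 → ∀ R : ℝ, lam ^ (-(2:ℝ)) ≤ R →
        ∃ Bad : Set ((Fin d → ℤ) → ℝ), MeasurableSet Bad ∧
          (Measure.infinitePi fun _ : Fin d → ℤ => μ).real Bad ≤ R ^ (-A) ∧
          ∀ V, V ∉ Bad → ∀ (E : ℝ) (u : (Fin d → ℤ) → ℂ), |E| ≤ 4 * d + 1 →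
            (∀ j : ℕ, j ≤ d → κ ≤ |E - 4 * j|) →
            ∀ y : Fin d → ℤ, (∀ i, ((|y i| : ℤ) : ℝ) ≤ R) →
              (∀ x ∈ cubZ y (lam ^ (-(2:ℝ))), HzZ ((E:ℝ):ℂ) lam V u x = 0) →
              ∀ r : ℝ, 1 ≤ r → r ≤ lam ^ (-(2:ℝ)) →
                ∑ x ∈ cubZ y r, ‖u x‖ ^ 2 ≤
                  C * lam ^ 2 * Real.log (1 / lam) ^ 2 * Real.log R * r *
                    ∑ x ∈ cubZ y (lam ^ (-(2:ℝ))), ‖u x‖ ^ 2 := by
  obtain ⟨C, l0, hC, hl0, h⟩ := every1 d hd κ hκ A hA b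
  refine ⟨2 * C, min l0 (1 / 3), by positivity, lt_min hl0 (by norm_num), ?_⟩
  intro μ _ hμ lam hlam hlam1 R hR
  rw [lt_min_iff] at hlam1
  have hm2 : 0 < lam ^ (-(2:ℝ)) := Real.rpow_pos_of_pos hlam _
  have h9 : 9 ≤ lam ^ (-(2:ℝ)) := by
    have hm2' : lam ^ (-(2:ℝ)) = (lam ^ 2)⁻¹ := by
      rw [Real.rpow_neg hlam.le]
      congr 1
      exact_mod_cast Real.rpow_natCast lam 2
    rw [hm2', le_inv_comm₀ (by norm_num) (by positivity)]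
    nlinarith [hlam1.2]
  have hR9 : 9 ≤ R := h9.trans hR
  obtain ⟨L, hL⟩ : ∃ L : ℕ, L = ⌈7 * R⌉₊ := ⟨_, rfl⟩
  have hL1 : 7 * R ≤ L := by rw [hL]; exact Nat.le_ceil _
  have hL2 : (L:ℝ) ≤ 8 * R := by
    have := Nat.ceil_lt_add_one (show (0:ℝ) ≤ 7 * R by linarith)
    rw [← hL] at this
    linarith
  have hL0 : (0:ℝ) < L := by linarith
  haveI : NeZero L := ⟨by
    intro h0
    rw [h0, Nat.cast_zero] at hL1
    linarith⟩
  have hlogL : Real.log L ≤ 2 * Real.log R := by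
    have h1 : (L:ℝ) ≤ R ^ 2 := by nlinarith
    have h2 := Real.log_le_log hL0 h1
    rwa [Real.log_pow, Nat.cast_ofNat] at h2
  have hlogR : 0 ≤ Real.log R := Real.log_nonneg (by linarith)
  obtain ⟨Bad, b1, b2, b3⟩ := h μ hμ lam hlam hlam1.1 L (by linarith)
  obtain ⟨c1, c2⟩ := bad_pull (lift : T d L → Fin d → ℤ) lift_inj μ b1
  refine ⟨_, c1, c2.le.trans (b2.trans ?_), ?_⟩
  · exact Real.rpow_le_rpow_of_nonpos (by linarith) (by linarith) (by linarith)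
  intro V hV E u hE hE4 y hy hu r hr1 hr2
  have hR0 : 0 ≤ R := by linarith
  have h2 : 2 * (R + lam ^ (-(2:ℝ)) + 1) < (L:ℝ) := by linarith
  have h3 := b3 (fun q => V (lift q)) hV E (fun q => u (lift q)) hE hE4 (proj L y) r hr1 hr2
  rw [sum_cub hR0 hy (by linarith) (fun x => ‖u x‖ ^ 2),
    sum_cub hR0 hy (by linarith) (fun x => ‖u x‖ ^ 2)] at h3
  have h4 : ∑ x ∈ cub (proj L y) (lam ^ (-(2:ℝ))),
      ‖Hz ((E:ℝ):ℂ) lam (fun q => V (lift q)) (fun q => u (lift q)) x‖ ^ 2 = 0 := by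
    refine Finset.sum_eq_zero fun q hq => ?_
    rw [Hz_lift hy h2 hq, hu _ (lift_mem hy (by linarith) hq)]
    simp
  rw [h4, mul_zero, add_zero] at h3
  refine h3.trans ?_
  have hnn : 0 ≤ ∑ x ∈ cubZ y (lam ^ (-(2:ℝ))), ‖u x‖ ^ 2 :=
    Finset.sum_nonneg fun _ _ => by positivity
  have hr0 : 0 ≤ r := by linarith
  calc C * lam ^ 2 * Real.log (1 / lam) ^ 2 * Real.log L * r *
      ∑ x ∈ cubZ y (lam ^ (-(2:ℝ))), ‖u x‖ ^ 2
      ≤ C * lam ^ 2 * Real.log (1 / lam) ^ 2 * (2 * Real.log R) * r *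
        ∑ x ∈ cubZ y (lam ^ (-(2:ℝ))), ‖u x‖ ^ 2 := by gcongr
    _ = _ := by ring

end Pool.Agent.Zk60.AE
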