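import Pool.Agent.Zk60.AE.Det
import Pool.Agent.Zk9.Khin

/-!
The sandwiched random potential is small: matrix Khintchine inequality on the torus.
-/

set_option autoImplicit false
set_option linter.unusedSectionVars false

open scoped BigOperators
open MeasureTheory

namespace Pool.Agent.Zk60.AE

open Pool.Agent.W788.MFP.Four (T e NN adj adj_neg e_comm e_add_left e_add e_zero e_neg e_neg_left
  e_normSq sum_e NN_pos card_T e_single)
open Pool.Agent.Zk11.QD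

variable {d L : ℕ} [NeZero L]

/-- The rank one matrices. -/
noncomputable def Ax (E η : ℝ) (x : T d L) : Matrix (T d L) (T d L) ℂ :=
  Matrix.of fun y z => Tk E η (y - x) * Tk E η (x - z)

theorem Tk_conj (E η : ℝ) (x : T d L) : (starRingEnd ℂ) (Tk E η x) = Tk E η (-x) := by
  unfold Tk
  rw [kc_conj]
  congr 1
  funext k
  exact Complex.conj_ofReal _

theorem Ax_herm (E η : ℝ) (x : T d L) : (Ax E η x).IsHermitian := by
  ext y z
  rw [Matrix.conjTranspose_apply]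
  unfold Ax
  rw [Matrix.of_apply, Matrix.of_apply, RCLike.star_def, map_mul, Tk_conj, Tk_conj, neg_sub,
    neg_sub]
  ring

theorem Ax_mulVec (E η : ℝ) (x : T d L) (z : T d L → ℂ) (y : T d L) :
    (Ax E η x).mulVec z y = Tk E η (y - x) * ∑ w, Tk E η (x - w) * z w := by
  show ∑ w, Tk E η (y - x) * Tk E η (x - w) * z w = _
  rw [Finset.mul_sum]
  refine Finset.sum_congr rfl fun w _ => ?_
  ring

theorem sum_mulVec (E η m : ℝ) (V : T d L → ℝ) (z : T d L → ℂ) (y : T d L) :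
    ((∑ x, ((V x - m : ℝ) : ℂ) • Ax E η x).mulVec z) y =
      ∑ x, Tk E η (y - x) * (((V x - m : ℝ) : ℂ) * ∑ w, Tk E η (x - w) * z w) := by
  rw [Matrix.sum_mulVec, Finset.sum_apply]
  refine Finset.sum_congr rfl fun x _ => ?_
  rw [Matrix.smul_mulVec, Pi.smul_apply, Ax_mulVec, smul_eq_mul]
  ring

/-- `T` has norm at most `η^(-1/2)`. -/
theorem conv_sq {E η : ℝ} (hη : 0 < η) (z : T d L → ℂ) :
    ∑ x, ‖∑ w, Tk E η (x - w) * z w‖ ^ 2 ≤ η⁻¹ * ∑ x, ‖z x‖ ^ 2 := by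
  have h1 : ∀ x, ∑ w, Tk E η (x - w) * z w = kc (fun k => (tw E η k : ℂ) * ft z k) x := by
    intro x
    rw [← conv_kc]
    refine Finset.sum_congr rfl fun w _ => ?_
    rw [kc_ft]
    rfl
  simp only [h1]
  rw [parseval_sq]
  have h2 : ∑ x, ‖z x‖ ^ 2 = (NN d L)⁻¹ * ∑ k, ‖ft z k‖ ^ 2 := by
    rw [← parseval_sq]
    refine Finset.sum_congr rfl fun x _ => ?_
    rw [kc_ft]
  rw [h2, mul_left_comm]
  refine mul_le_mul_of_nonneg_left ?_ (inv_nonneg.2 (NN_pos (d := d) (L := L)).le)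
  rw [Finset.mul_sum]
  refine Finset.sum_le_sum fun k _ => ?_
  rw [norm_mul, mul_pow, Complex.norm_real, Real.norm_eq_abs, sq_abs]
  exact mul_le_mul_of_nonneg_right (tw_sq_le E hη k) (by positivity)

theorem Tk_sq (E η : ℝ) (x : T d L) :
    ∑ y, ‖Tk E η (y - x)‖ ^ 2 = (NN d L)⁻¹ * ∑ k : T d L, tw E η k ^ 2 := by
  rw [← Equiv.sum_comp (Equiv.addRight x)]
  simp only [Equiv.coe_addRight, add_sub_cancel_right]
  unfold Tk
  rw [parseval_sq]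
  congr 1
  refine Finset.sum_congr rfl fun k _ => ?_
  rw [Complex.norm_real, Real.norm_eq_abs, sq_abs]

theorem Ax_sq {E η G : ℝ} (hη : 0 < η) (hG : (NN d L)⁻¹ * ∑ k : T d L, tw E η k ^ 2 ≤ G)
    (z : T d L → ℂ) :
    ∑ x, ∑ i, ‖((Ax E η x).mulVec z) i‖ ^ 2 ≤ G * η⁻¹ * ∑ i, ‖z i‖ ^ 2 := by
  have hG0 : 0 ≤ G := le_trans (mul_nonneg (inv_nonneg.2 (NN_pos (d := d) (L := L)).le)
    (Finset.sum_nonneg fun k _ => sq_nonneg _)) hG
  have h1 : ∀ x : T d L, ∑ i, ‖((Ax E η x).mulVec z) i‖ ^ 2 ≤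
      G * ‖∑ w, Tk E η (x - w) * z w‖ ^ 2 := by
    intro x
    simp only [Ax_mulVec, norm_mul, mul_pow]
    rw [← Finset.sum_mul, Tk_sq]
    exact mul_le_mul_of_nonneg_right hG (by positivity)
  calc ∑ x, ∑ i, ‖((Ax E η x).mulVec z) i‖ ^ 2
      ≤ ∑ x : T d L, G * ‖∑ w, Tk E η (x - w) * z w‖ ^ 2 := Finset.sum_le_sum fun x _ => h1 x
    _ = G * ∑ x : T d L, ‖∑ w, Tk E η (x - w) * z w‖ ^ 2 := by rw [Finset.mul_sum]
    _ ≤ G * (η⁻¹ * ∑ i, ‖z i‖ ^ 2) := mul_le_mul_of_nonneg_left (conv_sq hη z) hG0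
    _ = G * η⁻¹ * ∑ i, ‖z i‖ ^ 2 := by ring

/-- The bad event for one energy. -/
theorem one_energy {E η G lam b m : ℝ} (hη : 0 < η) (hlam : 0 < lam) (hb : 0 ≤ b)
    (hG : (NN d L)⁻¹ * ∑ k : T d L, tw E η k ^ 2 ≤ G)
    (μ : Measure ℝ) [IsProbabilityMeasure μ] (hμ : ∀ᵐ s ∂μ, |s - m| ≤ b) (hm : ∫ s, s ∂μ = m)
    (p : ℕ) (hp : 1 ≤ p) : ∃ Bad : Set (T d L → ℝ), MeasurableSet Bad ∧
      (Measure.pi fun _ : T d L => μ).real Bad ≤
        (L : ℝ) ^ d * (16 * b ^ 2 * p * G * lam ^ 2 / η) ^ p ∧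
      ∀ V, V ∉ Bad → ∀ z : T d L → ℂ, ∑ y, ‖(lam : ℂ) * ∑ x, Tk E η (y - x) *
        (((V x - m : ℝ) : ℂ) * ∑ w, Tk E η (x - w) * z w)‖ ^ 2 ≤ 1 / 4 * ∑ y, ‖z y‖ ^ 2 := by
  have hG0 : 0 ≤ G := le_trans (mul_nonneg (inv_nonneg.2 (NN_pos (d := d) (L := L)).le)
    (Finset.sum_nonneg fun k _ => sq_nonneg _)) hG
  obtain ⟨Bad, h1, h2, h3⟩ := khin_tail (Ax E η) (Ax_herm E η) b (G * η⁻¹) m hb
    (mul_nonneg hG0 (inv_nonneg.2 hη.le)) (Ax_sq hη hG) μ hμ hm p hp (1 / (2 * lam))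
    (by positivity)
  refine ⟨Bad, h1, h2.trans (le_of_eq ?_), ?_⟩
  · have hc : (Fintype.card (T d L) : ℝ) = (L : ℝ) ^ d := by
      rw [Fintype.card_fun, Fintype.card_fin, ZMod.card]
      push_cast
      rfl
    rw [hc]
    congr 2
    field_simp
    ring
  · intro V hV z
    have h4 := h3 V hV z
    simp only [sum_mulVec] at h4
    have h5 : ∀ y : T d L, ‖(lam : ℂ) * ∑ x, Tk E η (y - x) *
        (((V x - m : ℝ) : ℂ) * ∑ w, Tk E η (x - w) * z w)‖ ^ 2 = lam ^ 2 *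
        ‖∑ x, Tk E η (y - x) * (((V x - m : ℝ) : ℂ) * ∑ w, Tk E η (x - w) * z w)‖ ^ 2 := by
      intro y
      rw [norm_mul, mul_pow, Complex.norm_real, Real.norm_eq_abs, sq_abs]
    simp only [h5]
    rw [← Finset.mul_sum]
    refine (mul_le_mul_of_nonneg_left h4 (by positivity)).trans (le_of_eq ?_)
    field_simp
    ring

end Pool.Agent.Zk60.AE
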