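import Pool.Agent.Zk60.AE.Fin
import Pool.Agent.Zk9.Marg

/-!
The local estimate for the solutions on the lattice.
-/

set_option autoImplicit false
set_option linter.unusedSectionVars false

open scoped BigOperators
open MeasureTheory Filter Topology

namespace Pool.Agent.Zk60.AE

open Pool.Agent.W788.MFP.Four (T e NN adj adj_neg e_comm e_add_left e_add e_zero e_neg e_neg_left
  e_normSq sum_e NN_pos card_T e_single)
open Pool.Agent.Zk11.QD

/-- the cube of half-width `r` around `y` in `ℤ^d` -/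
noncomputable def cubZ {d : ℕ} (y : Fin d → ℤ) (r : ℝ) : Finset (Fin d → ℤ) :=
  Finset.Icc (fun i => y i - ⌊r⌋) (fun i => y i + ⌊r⌋)

theorem mem_cubZ {d : ℕ} {y : Fin d → ℤ} {r : ℝ} {x : Fin d → ℤ} :
    x ∈ cubZ y r ↔ ∀ i, ((|x i - y i| : ℤ) : ℝ) ≤ r := by
  unfold cubZ
  rw [Finset.mem_Icc, Pi.le_def, Pi.le_def]
  constructor
  · rintro ⟨h1, h2⟩ i
    have h3 : |x i - y i| ≤ ⌊r⌋ := by
      rw [abs_le]; exact ⟨by have := h1 i; linarith, by have := h2 i; linarith⟩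
    exact Int.le_floor.1 h3
  · intro h
    have h3 : ∀ i, |x i - y i| ≤ ⌊r⌋ := fun i => Int.le_floor.2 (h i)
    exact ⟨fun i => by have := (abs_le.1 (h3 i)).1; linarith,
      fun i => by have := (abs_le.1 (h3 i)).2; linarith⟩

/-- the operator on `ℤ^d` minus the spectral parameter -/
noncomputable def HzZ {d : ℕ} (z : ℂ) (lam : ℝ) (V : (Fin d → ℤ) → ℝ) (u : (Fin d → ℤ) → ℂ)
    (x : Fin d → ℤ) : ℂ :=
  (2 * d + (lam : ℂ) * V x - z) * u x - ∑ i : Fin d, (u (x + Pi.single i 1) + u (x - Pi.single i 1))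

variable {d L : ℕ} [NeZero L]

/-- the representative in the centred box -/
def lift (q : T d L) : Fin d → ℤ := fun i => (q i).valMinAbs

theorem lift_inj : Function.Injective (lift : T d L → Fin d → ℤ) := by
  intro q q' h
  funext i
  have h1 := congrFun h i
  simp only [lift] at h1
  exact ZMod.injective_valMinAbs h1

/-- the projection -/
def proj (L : ℕ) (x : Fin d → ℤ) : T d L := fun i => ((x i : ℤ) : ZMod L)

theorem proj_lift (q : T d L) : proj L (lift q) = q := by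
  funext i
  simp only [proj, lift]
  exact ZMod.coe_valMinAbs (q i)

theorem vma_cast {a : ℤ} (h : 2 * |a| < L) : ((a : ℤ) : ZMod L).valMinAbs = a := by
  rw [ZMod.valMinAbs_spec]
  refine ⟨rfl, ?_⟩
  rw [Set.mem_Ioc]
  have h1 := neg_abs_le a
  have h2 := le_abs_self a
  constructor <;> linarith

theorem lift_proj {x : Fin d → ℤ} (h : ∀ i, 2 * |x i| < L) : lift (proj L x) = x := by
  funext i
  simp only [proj, lift]
  exact vma_cast (h i)

/-- the shift of the representative -/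
theorem vma_add {q : ZMod L} {a c : ℤ} (hq : q = ((a : ℤ) : ZMod L)) (h : 2 * (|a| + |c|) < L) :
    (q + ((c : ℤ) : ZMod L)).valMinAbs = q.valMinAbs + c := by
  have hc := abs_nonneg c
  have h1 : 2 * |a| < (L : ℤ) := by linarith
  have h2 : 2 * |a + c| < (L : ℤ) := by have := abs_add_le a c; linarith
  rw [hq, ← Int.cast_add, vma_cast h1, vma_cast h2]

/-- the point of the torus in the cube -/
theorem near {y : Fin d → ℤ} {R r : ℝ} (hy : ∀ i, ((|y i| : ℤ) : ℝ) ≤ R)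
    (hRr : 2 * (R + r) < L) {q : T d L} (hq : q ∈ cub (proj L y) r) (i : Fin d) :
    (q i).valMinAbs = y i + ((q - proj L y) i).valMinAbs ∧
      ((|y i + ((q - proj L y) i).valMinAbs| : ℤ) : ℝ) ≤ R + r := by
  have h1 : ((|((q - proj L y) i).valMinAbs| : ℤ) : ℝ) ≤ r := (Finset.mem_filter.1 hq).2 i
  set t : ℤ := ((q - proj L y) i).valMinAbs with ht
  have h2 : q i = ((y i + t : ℤ) : ZMod L) := by
    have h3 : ((t : ℤ) : ZMod L) = (q - proj L y) i := by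
      rw [ht]; exact ZMod.coe_valMinAbs _
    rw [Int.cast_add, h3, Pi.sub_apply]
    simp only [proj]
    ring
  have h4 : ((|y i + t| : ℤ) : ℝ) ≤ R + r := by
    have h5 : ((|y i + t| : ℤ) : ℝ) ≤ ((|y i| : ℤ) : ℝ) + ((|t| : ℤ) : ℝ) := by
      exact_mod_cast abs_add_le (y i) t
    have := hy i
    linarith
  refine ⟨?_, h4⟩
  rw [h2, vma_cast]
  have h6 : (2 : ℝ) * ((|y i + t| : ℤ) : ℝ) < L := by linarith
  exact_mod_cast h6

theorem lift_mem {y : Fin d → ℤ} {R r : ℝ} (hy : ∀ i, ((|y i| : ℤ) : ℝ) ≤ R)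
    (hRr : 2 * (R + r) < L) {q : T d L} (hq : q ∈ cub (proj L y) r) : lift q ∈ cubZ y r := by
  rw [mem_cubZ]
  intro i
  obtain ⟨h1, -⟩ := near hy hRr hq i
  have h2 : lift q i = (q i).valMinAbs := rfl
  rw [h2, h1, add_sub_cancel_left]
  exact (Finset.mem_filter.1 hq).2 i

theorem proj_mem {y : Fin d → ℤ} {r : ℝ} (hr : 2 * r < L) {x : Fin d → ℤ} (hx : x ∈ cubZ y r) :
    proj L x ∈ cub (proj L y) r := by
  rw [mem_cubZ] at hx
  unfold cub
  rw [Finset.mem_filter]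
  refine ⟨Finset.mem_univ _, fun i => ?_⟩
  have h1 : (proj L x - proj L y) i = ((x i - y i : ℤ) : ZMod L) := by
    simp only [proj, Pi.sub_apply]
    push_cast
    ring
  rw [h1, vma_cast]
  · exact hx i
  · have := hx i
    have h6 : (2 : ℝ) * ((|x i - y i| : ℤ) : ℝ) < L := by linarith
    exact_mod_cast h6

theorem sum_cub {y : Fin d → ℤ} {R r : ℝ} (hR : 0 ≤ R) (hy : ∀ i, ((|y i| : ℤ) : ℝ) ≤ R)
    (hRr : 2 * (R + r) < L) (f : (Fin d → ℤ) → ℝ) :
    ∑ q ∈ cub (proj L y) r, f (lift q) = ∑ x ∈ cubZ y r, f x := by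
  refine Finset.sum_nbij' lift (proj L) (fun q hq => lift_mem hy hRr hq)
    (fun x hx => proj_mem (by linarith) hx) (fun q _ => proj_lift q) (fun x hx => ?_)
    (fun q _ => rfl)
  apply lift_proj
  intro i
  rw [mem_cubZ] at hx
  have h1 := hx i
  have h2 := hy i
  have h3 : ((|x i| : ℤ) : ℝ) ≤ ((|x i - y i| : ℤ) : ℝ) + ((|y i| : ℤ) : ℝ) := by
    have := abs_add_le (x i - y i) (y i)
    rw [sub_add_cancel] at this
    exact_mod_cast this
  have h6 : (2 : ℝ) * ((|x i| : ℤ) : ℝ) < L := by linarith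
  exact_mod_cast h6

theorem lift_add {y : Fin d → ℤ} {R r : ℝ} (hy : ∀ i, ((|y i| : ℤ) : ℝ) ≤ R)
    (hRr : 2 * (R + r + 1) < L) {q : T d L} (hq : q ∈ cub (proj L y) r) (i : Fin d) (c : ℤ)
    (hc : |c| ≤ 1) :
    lift (q + Pi.single i ((c : ℤ) : ZMod L)) = lift q + Pi.single i c := by
  funext j
  have h1 := near hy (by linarith) hq j
  simp only [lift, Pi.add_apply]
  by_cases h : j = i
  · subst h
    rw [Pi.single_eq_same, Pi.single_eq_same]
    apply vma_add (a := (q j).valMinAbs) (ZMod.coe_valMinAbs _).symm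
    rw [h1.1]
    have h2 := h1.2
    have h3 : ((|c| : ℤ) : ℝ) ≤ 1 := by exact_mod_cast hc
    have h6 : (2 : ℝ) * (((|y j + ((q - proj L y) j).valMinAbs| : ℤ) : ℝ) + ((|c| : ℤ) : ℝ)) < L := by
      linarith
    exact_mod_cast h6
  · rw [Pi.single_eq_of_ne h, Pi.single_eq_of_ne h, add_zero, add_zero]

theorem Hz_lift {y : Fin d → ℤ} {R r : ℝ} (hy : ∀ i, ((|y i| : ℤ) : ℝ) ≤ R)
    (hRr : 2 * (R + r + 1) < L) {q : T d L} (hq : q ∈ cub (proj L y) r) (z : ℂ) (lam : ℝ)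
    (V : (Fin d → ℤ) → ℝ) (u : (Fin d → ℤ) → ℂ) :
    Hz z lam (fun q => V (lift q)) (fun q => u (lift q)) q = HzZ z lam V u (lift q) := by
  unfold Hz HzZ
  have h1 : ∀ i : Fin d, lift (q + Pi.single i 1) = lift q + Pi.single i 1 := by
    intro i
    have := lift_add hy hRr hq i 1 (by norm_num)
    rwa [Int.cast_one] at this
  have h2 : ∀ i : Fin d, lift (q - Pi.single i 1) = lift q - Pi.single i 1 := by
    intro i
    have := lift_add hy hRr hq i (-1) (by norm_num)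
    rwa [Int.cast_neg, Int.cast_one, Pi.single_neg, Pi.single_neg, ← sub_eq_add_neg,
      ← sub_eq_add_neg] at this
  simp only [h1, h2]

/-- Every solution on the lattice is spread beyond `λ^(-2+)`. -/
theorem everyZ (d : ℕ) (hd : 1 ≤ d) (κ : ℝ) (hκ : 0 < κ) (s : ℝ) (hs : 0 < s) (hs1 : s ≤ 1)
    (b : ℝ) :
    ∃ lam0 : ℝ, 0 < lam0 ∧ ∀ (μ : Measure ℝ) [IsProbabilityMeasure μ], (∀ᵐ t ∂μ, |t| ≤ b) →
      ∀ lam : ℝ, 0 < lam → lam < lam0 →
        ∃ Bad : Set ((Fin d → ℤ) → ℝ), MeasurableSet Bad ∧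
          (Measure.infinitePi fun _ : Fin d → ℤ => μ).real Bad ≤
            Real.exp (-(lam ^ (-(s / 4)))) ∧
          ∀ V, V ∉ Bad → ∀ (E : ℝ) (u : (Fin d → ℤ) → ℂ), |E| ≤ 4 * d + 1 →
            (∀ j : ℕ, j ≤ d → κ ≤ |E - 4 * j|) →
            ∀ y : Fin d → ℤ, (∀ i, ((|y i| : ℤ) : ℝ) ≤ Real.exp (lam ^ (-(s / 4))) / 4) →
              (∀ x ∈ cubZ y (lam ^ (-(2:ℝ))), HzZ ((E:ℝ):ℂ) lam V u x = 0) →
              ∀ r : ℝ, 1 ≤ r → r ≤ lam ^ (-(2:ℝ)) →
                ∑ x ∈ cubZ y r, ‖u x‖ ^ 2 ≤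
                  lam ^ (2 - s) * r * ∑ x ∈ cubZ y (lam ^ (-(2:ℝ))), ‖u x‖ ^ 2 := by
  obtain ⟨l0, hl0, h⟩ := every0 d hd κ hκ s hs hs1 b
  obtain ⟨l1, hl1, h1⟩ := mem_nhdsGT_iff_exists_Ioo_subset.1 (ev3 hs 4 8)
  have hl1' : (0:ℝ) < l1 := hl1
  refine ⟨min l0 l1, lt_min hl0 hl1', ?_⟩
  intro μ _ hμ lam hlam hlam1
  rw [lt_min_iff] at hlam1
  have k1 : 4 * lam ^ (-(2:ℝ)) + 8 ≤ Real.exp (lam ^ (-(s / 4))) := h1 ⟨hlam, hlam1.2⟩
  set X : ℝ := lam ^ (-(s / 4)) with hX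
  have hm2 : 0 < lam ^ (-(2:ℝ)) := Real.rpow_pos_of_pos hlam _
  set L : ℕ := ⌊Real.exp X⌋₊ with hL
  have hL1 : Real.exp X - 1 < L := by
    have := Nat.lt_floor_add_one (Real.exp X)
    rw [← hL] at this
    linarith
  have hL2 : (L:ℝ) ≤ Real.exp X := Nat.floor_le (Real.exp_pos _).le
  haveI : NeZero L := ⟨by
    intro h0
    rw [h0, Nat.cast_zero] at hL1
    linarith⟩
  obtain ⟨Bad, b1, b2, b3⟩ := h μ hμ lam hlam hlam1.1 L (by linarith) hL2
  obtain ⟨c1, c2⟩ := bad_pull (lift : T d L → Fin d → ℤ) lift_inj μ b1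
  refine ⟨_, c1, c2.le.trans b2, ?_⟩
  intro V hV E u hE hE4 y hy hu r hr1 hr2
  have hR0 : 0 ≤ Real.exp X / 4 := by positivity
  have h2 : 2 * (Real.exp X / 4 + lam ^ (-(2:ℝ)) + 1) < (L:ℝ) := by linarith
  have h3 := b3 (fun q => V (lift q)) hV E (fun q => u (lift q)) hE hE4 (proj L y) r hr1 hr2
  rw [sum_cub hR0 hy (by linarith) (fun x => ‖u x‖ ^ 2),
    sum_cub hR0 hy (by linarith) (fun x => ‖u x‖ ^ 2)] at h3
  have h4 : ∑ x ∈ cub (proj L y) (lam ^ (-(2:ℝ))),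
      ‖Hz ((E:ℝ):ℂ) lam (fun q => V (lift q)) (fun q => u (lift q)) x‖ ^ 2 = 0 := by
    refine Finset.sum_eq_zero fun q hq => ?_
    rw [Hz_lift hy h2 hq, hu _ (lift_mem hy (by linarith) hq)]
    simp
  rwa [h4, mul_zero, add_zero] at h3

end Pool.Agent.Zk60.AE
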